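import Pool.Agent.Helper25_CN3.RAll

noncomputable section

namespace Pool.Agent.CN3.H25

open Pool.Agent.H25Cong Pool.Agent.CON Pool.Agent.CN2

/-- the part with the value c of κ -/
def prt {n : ℕ} (a : Module.Basis (Fin (n + 1)) ℝ (V n)) (z : ℕ → ℤ) (P : ℕ → Prop)
    [DecidablePred P] : V n :=
  ∑ j ∈ (Finset.Ico 2 (n + 1)).filter P, ((z j : ℤ) : ℝ) • av a j

lemma prt_mem {n : ℕ} (a : Module.Basis (Fin (n + 1)) ℝ (V n)) (z : ℕ → ℤ) (P : ℕ → Prop)
    [DecidablePred P] : prt a z P ∈ LL a := by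
  refine Submodule.sum_mem _ fun j _ => ?_
  rw [Int.cast_smul_eq_zsmul]
  exact Submodule.smul_mem _ _ (av_mem a j)

theorem o_nrm (h3 : V_HYP) (h2 : V_EVN) : O_NRM := by
  intro n a G κ x hG hh hκ hx hx0 hxx
  obtain ⟨hn, ee, ff, ef, hk, hex⟩ := h3 n a G hG hh
  obtain ⟨z, hz, hz1, hz2⟩ := hex x hx
  have hev := (h2 n a G hG).even
  rw [hx0] at hz2
  have hz0 : ((z 1 : ℤ) : ℝ) = 0 := by linarith
  rw [hz0, zero_smul, add_zero] at hz
  -- positivity
  have hperp : ∀ P : ℕ → Prop, ∀ [DecidablePred P],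
      B (prt a z P) (av a 0) = 0 ∧ B (prt a z P) (av a 1) = 0 := by
    intro P _
    unfold prt
    constructor
    · rw [B_sum_left]
      refine Finset.sum_eq_zero fun j hj => ?_
      rw [B_smul_left, (hk j (Finset.mem_Ico.1 (Finset.mem_filter.1 hj).1).1).1, mul_zero]
    · rw [B_sum_left]
      refine Finset.sum_eq_zero fun j hj => ?_
      rw [B_smul_left, (hk j (Finset.mem_Ico.1 (Finset.mem_filter.1 hj).1).1).2, mul_zero]
  have hv : B (av a 0 + av a 1) (av a 0 + av a 1) < 0 := by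
    rw [B_add_left, B_add_right, B_add_right, ee, ff, ef, B_comm (av a 1), ef]
    norm_num
  have hvp : ∀ P : ℕ → Prop, ∀ [DecidablePred P], B (prt a z P) (av a 0 + av a 1) = 0 := by
    intro P _
    rw [B_add_right, (hperp P).1, (hperp P).2, add_zero]
  have hpos : ∀ P : ℕ → Prop, ∀ [DecidablePred P], 0 ≤ B (prt a z P) (prt a z P) := by
    intro P _
    exact perp_nonneg hv (hvp P)
  have hne : ∀ P : ℕ → Prop, ∀ [DecidablePred P], prt a z P ≠ 0 →
      2 ≤ B (prt a z P) (prt a z P) := by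
    intro P _ h0
    obtain ⟨m, hm⟩ := hev _ (prt_mem a z P)
    have h1 : 0 < B (prt a z P) (prt a z P) :=
      lt_of_le_of_ne (hpos P) fun h => h0 (perp_eq_zero hv (hvp P) h.symm)
    rw [hm] at h1 ⊢
    have : (0 : ℤ) < m := by
      have : (0 : ℝ) < m := by linarith
      exact_mod_cast this
    have : (1 : ℝ) ≤ m := by exact_mod_cast this
    linarith
  -- the sum of all
  set y : V n := ∑ k ∈ Finset.Ico 2 (n + 1), ((z k : ℤ) : ℝ) • av a k with hy
  have hyy : B y y = 2 := by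
    have h1 : B y (av a 0) = 0 := by
      have := hx0
      rw [hz, B_add_left, B_smul_left, ee, mul_zero, zero_add] at this
      exact this
    rw [hz, B_add_left, B_add_right, B_add_right, B_smul_left, B_smul_left, B_smul_right,
      B_smul_right, ee, B_comm (av a 0) y, h1] at hxx
    linarith
  have hsum : ∑ c ∈ (Finset.Ico 2 (n + 1)).image κ, prt a z (fun j => κ j = c) = y := by
    unfold prt
    exact Finset.sum_fiberwise_of_maps_to (fun j hj => Finset.mem_image_of_mem κ hj) _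
  have hex' : ∃ c ∈ (Finset.Ico 2 (n + 1)).image κ, prt a z (fun j => κ j = c) ≠ 0 := by
    by_contra hcon
    push Not at hcon
    rw [Finset.sum_eq_zero hcon] at hsum
    rw [← hsum] at hyy
    simp at hyy
  obtain ⟨c, hc, hc0⟩ := hex'
  obtain ⟨k, hk2, rfl⟩ := Finset.mem_image.1 hc
  have hk2' := Finset.mem_Ico.1 hk2
  refine ⟨k, hk2'.1, hk2'.2, z, z 0, ?_⟩
  have hsplit : y = prt a z (fun j => κ j = κ k) + prt a z (fun j => ¬ κ j = κ k) := by
    rw [hy]
    unfold prt
    rw [Finset.sum_filter_add_sum_filter_not]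
  have horth : B (prt a z (fun j => κ j = κ k)) (prt a z (fun j => ¬ κ j = κ k)) = 0 := by
    unfold prt
    rw [B_sum_left]
    refine Finset.sum_eq_zero fun i hi => ?_
    rw [B_sum_right]
    refine Finset.sum_eq_zero fun j hj => ?_
    obtain ⟨hi1, hi2⟩ := Finset.mem_filter.1 hi
    obtain ⟨hj1, hj2⟩ := Finset.mem_filter.1 hj
    rw [Finset.mem_Ico] at hi1 hj1
    rw [B_smul_left, B_smul_right, ent_av hG hi1.2 hj1.2,
      hκ i j hi1.1 hj1.1 hi1.2 hj1.2 (fun h => hj2 (by rw [← h, hi2]))]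
    simp
  have hrest : prt a z (fun j => ¬ κ j = κ k) = 0 := by
    by_contra h0
    have h1 := hne _ hc0
    have h2 := hne _ h0
    rw [hsplit, B_add_left, B_add_right, B_add_right, horth, B_comm, B_comm
      (prt a z fun j => ¬ κ j = κ k) (prt a z fun j => κ j = κ k)] at hyy
    have h3 : B (prt a z fun j => ¬ κ j = κ k) (prt a z fun j => κ j = κ k) = 0 := by
      rw [B_comm]; exact horth
    linarith
  rw [hz, hsplit, hrest, add_zero]
  rfl

end Pool.Agent.CN3.H25

end
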