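import Pool.Agent.Helper25_CN3.Stmts
import Pool.Agent.Helper2_CN3.Asm

/-!
Squad CN3, Part 1: assembly
-/

noncomputable section

namespace Pool.Agent.CN3

open Pool.Agent.H25Cong Pool.Agent.CON Pool.Agent.CN2

variable {n : ℕ}

/-- the check of the data: the Gram matrix is that of the basis -/
lemma datB_parts {G : List (List ℤ)} {d : Dat} {ok : List ℕ → Bool} (h : datB G d ok = true) :
    symB G.length G = true ∧ hypB G = true ∧ trnB G = true ∧ simB G d.q = true ∧
    weyB G d.q d.R = true ∧ cusB G d.A d.c d.D d.p (d.cu.map fun u => u.1) = true ∧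
    gip G d.p (uv G.length 0) < 0 ∧ (∀ u ∈ d.cu, exB G d.κ u.1 u.2 = true) ∧
    autB G d.q ok d.q [] = true := by
  simp only [datB, Bool.and_eq_true, decide_eq_true_eq, List.all_eq_true] at h
  obtain ⟨⟨⟨⟨⟨⟨⟨⟨h1, h2⟩, h3⟩, h4⟩, h5⟩, h6⟩, h7⟩, h8⟩, h9⟩ := h
  exact ⟨h1, h2, h3, h4, h5, h6, h7, h8, h9⟩

lemma cusB_p {G A c : List (List ℤ)} {D : ℤ} {p : List ℤ} {cu : List Cu}
    (h : cusB G A c D p cu = true) : gip G p p < 0 := by
  simp only [cusB, Bool.and_eq_true, decide_eq_true_eq, List.all_eq_true] at h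
  exact h.1.1.1.1.1.1.1.2

lemma BG_len {a : Module.Basis (Fin (n + 1)) ℝ (V n)} {G : List (List ℤ)} (h : BG a G) :
    G.length = n + 1 := by
  have := h.sym
  simp only [symB, Bool.and_eq_true, decide_eq_true_eq, List.all_eq_true] at this
  exact this.1.1.1

lemma av_mem (a : Module.Basis (Fin (n + 1)) ℝ (V n)) (k : ℕ) : av a k ∈ LL a := by
  unfold av
  split
  · exact Submodule.subset_span ⟨_, rfl⟩
  · exact Submodule.zero_mem _

lemma ent_av {a : Module.Basis (Fin (n + 1)) ℝ (V n)} {G : List (List ℤ)} (h : BG a G)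
    {i j : ℕ} (hi : i < n + 1) (hj : j < n + 1) : B (av a i) (av a j) = ent G i j := by
  unfold av
  rw [dif_pos hi, dif_pos hj]
  exact h.gram ⟨i, hi⟩ ⟨j, hj⟩

lemma simB_len {G : List (List ℤ)} {q : ℕ} (h : simB G q = true) :
    q + 2 = G.length ∨ q + 3 = G.length := by
  simp only [simB, Bool.and_eq_true, Bool.or_eq_true, decide_eq_true_eq, List.all_eq_true] at h
  rcases h.2 with h | h
  · exact Or.inl h
  · exact Or.inr h.1.1

theorem r_all (h1 : V_IP) (h2 : V_MEM) (h3 : V_HYP) (h4 : T_REF) (h5 : T_ISO) (h6 : C_CUS)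
    (h7 : P_PRM) (h8 : O_DIV) (h9 : O_TYP) (h10 : O_PCK) (h11 : S_STB) (h12 : W_PRM)
    (h13 : W_AUT) : R_ALL := by
  intro n a G d ok hG hd g hg hgp
  obtain ⟨d1, d2, d3, d4, d5, d6, d7, d8, d9⟩ := datB_parts hd
  have hlen := BG_len hG
  obtain ⟨hn, ee, ff, ef, -, -⟩ := h3 n a G hG d2
  set p := lv a d.p with hp
  have hpp : B p p < 0 := by
    rw [hp, h1 n a G hG]
    exact_mod_cast cusB_p d6
  have hep : B (av a 0) p < 0 := by
    rw [← (h2 n a).2.2.1 0, hp, B_comm, h1 n a G hG, ← hlen]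
    exact_mod_cast d7
  have he0 : av a 0 ≠ 0 := by
    intro h0
    rw [h0, B_comm] at ef
    simp at ef
  have hgi : Isom g := hg.1
  have hge : g (av a 0) ∈ LL a := (hg.2 _).2 (av_mem a 0)
  have hge0 : g (av a 0) ≠ 0 := fun h0 => he0 (by
    have := congrArg g.symm h0
    simpa using this)
  have hgee : B (g (av a 0)) (g (av a 0)) = 0 := by rw [hgi, ee]
  have hgep : B (g (av a 0)) p < 0 := h5 n g p (av a 0) hgi hpp hgp ee.le hep
  obtain ⟨w1, hw1, u, hu, hnull, t, ht⟩ := h6 n a G d.A d.c d.D d.p _ hG d6 _ hge hge0 hgee hgep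
  have hw1g : w1 * g ∈ OLat (LL a) := (OLat (LL a)).mul_mem (refL_le _ hw1) hg
  have ht1 : t = 1 ∨ t = -1 := h7 n a G d.A u (w1 * g) t hG hnull hw1g (by rw [mul_ap, ht])
  have hpm : (w1 * g) (av a 0) = lv a u.ε ∨ (w1 * g) (av a 0) = - lv a u.ε := by
    rw [mul_ap, ht]
    rcases ht1 with rfl | rfl
    · left; rw [one_smul]
    · right; rw [neg_one_smul]
  have hfix : w1 (g (av a 0)) = av a 0 := by
    obtain ⟨u', hu', rfl⟩ := List.mem_map.1 hu
    have hex := d8 u' hu'
    rcases hx : u'.2 with _ | _ | ⟨o, s, tt⟩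
    · rw [hx] at hex
      simp only [exB, decide_eq_true_eq] at hex
      rw [hex, hlen, (h2 n a).2.2.1 0] at ht
      rcases ht1 with rfl | rfl
      · rw [ht, one_smul]
      · exfalso
        have := h4 n (LL a) w1 p (g (av a 0)) hw1 hpp hgee.le hgep
        rw [ht, neg_one_smul, B_neg_left] at this
        linarith
    · rw [hx] at hex
      exact (h8 n a G _ (w1 * g) hG d2 hex hw1g hpm).elim
    · rw [hx] at hex
      simp only [exB, Bool.and_eq_true] at hex
      exact (h10 _ _ _ _ hex.2 (h9 n a G d.κ _ o (w1 * g) hG d2 hex.1 hw1g hpm)).elim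
  obtain ⟨w2, hw2, hw2e, hw2f⟩ := h11 n a G hG d2 d3 (w1 * g) hw1g (by rw [mul_ap, hfix])
  have hg2 : w2 * (w1 * g) ∈ OLat (LL a) := (OLat (LL a)).mul_mem (refL_le _ hw2) hw1g
  obtain ⟨w3, hw3, hw3e, hw3f, π, hπ, hπ'⟩ := h12 n a G d.q d.R hG d2 d4 d5 (w2 * (w1 * g)) hg2
    (by rw [mul_ap, hw2e]) (by rw [mul_ap, hw2f])
  have hW : w3 * w2 * w1 ∈ RefL (LL a) := mul_mem (mul_mem hw3 hw2) hw1
  have hWg : ∀ x, (w3 * w2 * w1) (g x) = w3 ((w2 * (w1 * g)) x) := fun x => rfl
  refine ⟨w3 * w2 * w1, hW, ?_, ?_, π, hπ, ?_, ?_⟩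
  · rw [hWg, hw3e]
  · rw [hWg, hw3f]
  · intro i hi
    rw [hWg, hπ' i hi]
  · refine h13 G d.q ok d9 π hπ fun i hi j hj => ?_
    have hq : ∀ i < d.q, 2 + i < n + 1 := fun i hi => by
      rcases simB_len d4 with h | h <;> omega
    have hI : Isom (w3 * (w2 * (w1 * g))) := (refL_isom hw3).mul ((refL_isom hw2).mul
      ((refL_isom hw1).mul hgi))
    have e1 := hI (av a (2 + i)) (av a (2 + j))
    rw [mul_ap w3, mul_ap w3, hπ' i hi, hπ' j hj, ent_av hG (hq _ (hπ i hi)) (hq _ (hπ j hj)),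
      ent_av hG (hq i hi) (hq j hj)] at e1
    exact_mod_cast e1.symm

lemma av_inj (a : Module.Basis (Fin (n + 1)) ℝ (V n)) {i j : ℕ} (hi : i < n + 1)
    (hj : j < n + 1) (h : av a i = av a j) : i = j := by
  unfold av at h
  rw [dif_pos hi, dif_pos hj] at h
  exact congrArg Fin.val (a.injective h)

/-- the words of reflections -/
lemma ort_one (h1 : V_IP) (hT : T_TIM) (hall : R_ALL) (hwrd : W_WRD) (hfix : W_FIX)
    (a : Module.Basis (Fin (n + 1)) ℝ (V n)) (G : List (List ℤ)) (d : Dat) (hG : BG a G)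
    (hd : datB G d (ok1 G d) = true) : CongSub (LL a) 1 (RefL (LL a)) := by
  obtain ⟨d1, d2, d3, d4, d5, d6, d7, d8, d9⟩ := datB_parts hd
  have hpp : B (lv a d.p) (lv a d.p) < 0 := by
    rw [h1 n a G hG]
    exact_mod_cast cusB_p d6
  have key : ∀ g ∈ OLat (LL a), B (g (lv a d.p)) (lv a d.p) < 0 → g ∈ RefL (LL a) := by
    intro g hg hgp
    obtain ⟨w, hw, he, hf, π, hπ, hπ', hok⟩ := hall n a G d _ hG hd g hg hgp
    simp only [ok1, List.any_eq_true] at hok
    obtain ⟨wd, -, hwd⟩ := hok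
    obtain ⟨h, hh, hhe, hhf, hh'⟩ := hwrd n a G d.q _ wd hG hwd
    have hmem : h⁻¹ * (w * g) ∈ RefL (LL a) := by
      refine hfix n a G d.q hG d2 d3 d4 _ (mul_mem (inv_mem (refL_le _ hh))
        (mul_mem (refL_le _ hw) hg)) fun i hi => ?_
      rw [mul_ap, mul_ap]
      rcases Nat.lt_or_ge i 2 with h2 | h2
      · interval_cases i
        · rw [he, ← hhe, inv_ap, hhe]
        · rw [hf, ← hhf, inv_ap, hhf]
      · obtain ⟨j, rfl⟩ := Nat.exists_eq_add_of_le h2
        have hj : j < d.q := by omega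
        have e1 := hh' j hj
        rw [List.getD_eq_getElem _ _ (by simpa using hj)] at e1
        simp only [List.getElem_map, List.getElem_range] at e1
        rw [hπ' j hj, ← e1, inv_ap]
    have : g = w⁻¹ * (h * (h⁻¹ * (w * g))) := by group
    rw [this]
    exact mul_mem (inv_mem hw) (mul_mem hh hmem)
  intro g hg _
  have hne : B (g (lv a d.p)) (lv a d.p) ≠ 0 := by
    refine (hT n (lv a d.p) (g (lv a d.p)) 0 hpp).1 ?_ ?_
    · intro h0
      have : lv a d.p = 0 := by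
        have := congrArg g.symm h0
        simpa using this
      rw [this] at hpp
      simp at hpp
    · rw [hg.1]; exact hpp.le
  rcases lt_or_gt_of_ne hne with h | h
  · exact ⟨g, key g hg h, Or.inl fun _ => rfl⟩
  · refine ⟨g.trans (LinearEquiv.neg ℝ), key _ ⟨fun x y => ?_, fun x => ?_⟩ ?_, Or.inr fun x => ?_⟩
    · simp only [LinearEquiv.trans_apply, LinearEquiv.neg_apply, B_neg_left, B_neg_right, neg_neg]
      exact hg.1 x y
    · simp only [LinearEquiv.trans_apply, LinearEquiv.neg_apply, neg_mem_iff]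
      exact hg.2 x
    · simp only [LinearEquiv.trans_apply, LinearEquiv.neg_apply, B_neg_left]
      linarith
    · rfl

/-- the lattice U + D_4 + D_4 + A_1 -/
lemma ort_two (h1 : V_IP) (hT : T_TIM) (hall : R_ALL) (hwrd : W_WRD) (hfix : W_FIX)
    (hX : X_D44) (a : Module.Basis (Fin (10 + 1)) ℝ (V 10)) (d : Dat)
    (hG : BG a (blk hyp (gr [(.D 4, 1), (.D 4, 1), (.A 1, 1)])))
    (hd : datB (blk hyp (gr [(.D 4, 1), (.D 4, 1), (.A 1, 1)])) d
      (ok2 (blk hyp (gr [(.D 4, 1), (.D 4, 1), (.A 1, 1)])) d [4, 5, 6, 7, 0, 1, 2, 3, 8]) = true)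
    (hq : d.q = 9) :
    CongSub (LL a) 2 (RefL (LL a)) := by
  obtain ⟨d1, d2, d3, d4, d5, d6, d7, d8, d9⟩ := datB_parts hd
  have hpp : B (lv a d.p) (lv a d.p) < 0 := by
    rw [h1 10 a _ hG]
    exact_mod_cast cusB_p d6
  have key : ∀ g ∈ OLat (LL a), IsOneMod (LL a) 2 g → B (g (lv a d.p)) (lv a d.p) < 0 →
      g ∈ RefL (LL a) := by
    intro g hg hg2 hgp
    obtain ⟨w, hw, he, hf, π, hπ, hπ', hok⟩ := hall 10 a _ d _ hG hd g hg hgp
    simp only [ok2, List.any_eq_true, Bool.or_eq_true] at hok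
    obtain ⟨wd, -, hwd | hwd⟩ := hok
    · obtain ⟨h, hh, hhe, hhf, hh'⟩ := hwrd 10 a _ d.q _ wd hG hwd
      have hmem : h⁻¹ * (w * g) ∈ RefL (LL a) := by
        refine hfix 10 a _ d.q hG d2 d3 d4 _ (mul_mem (inv_mem (refL_le _ hh))
          (mul_mem (refL_le _ hw) hg)) fun i hi => ?_
        rw [mul_ap, mul_ap]
        rcases Nat.lt_or_ge i 2 with h2 | h2
        · interval_cases i
          · rw [he, ← hhe, inv_ap, hhe]
          · rw [hf, ← hhf, inv_ap, hhf]
        · obtain ⟨j, rfl⟩ := Nat.exists_eq_add_of_le h2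
          have hj : j < d.q := by omega
          have e1 := hh' j hj
          rw [List.getD_eq_getElem _ _ (by simpa using hj)] at e1
          simp only [List.getElem_map, List.getElem_range] at e1
          rw [hπ' j hj, ← e1, inv_ap]
      have : g = w⁻¹ * (h * (h⁻¹ * (w * g))) := by group
      rw [this]
      exact mul_mem (inv_mem hw) (mul_mem hh hmem)
    · -- the word realizes τ π; then w' g realizes τ
      exfalso
      obtain ⟨h, hh, hhe, hhf, hh'⟩ := hwrd 10 a _ d.q _ wd hG hwd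
      rw [hq] at hπ hπ' hh'
      have hinj : Function.Injective fun i : Fin 9 => (⟨π i, hπ i i.2⟩ : Fin 9) := by
        intro i j hij
        have hij' : π i = π j := congrArg Fin.val hij
        have e1 := hπ' i i.2
        rw [hij', ← hπ' j j.2] at e1
        have e2 := av_inj a (by omega) (by omega) (g.injective (w.injective e1))
        exact Fin.ext (by omega)
      have hsur := Finite.injective_iff_surjective.1 hinj
      have hkey : ∀ k : Fin 9, ∃ i < 9, π i = k ∧
          h (g⁻¹ (w⁻¹ (av a (2 + k)))) = av a (2 + ([4, 5, 6, 7, 0, 1, 2, 3, 8].getD k 0)) := by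
        intro k
        obtain ⟨i, hi⟩ := hsur k
        have hi' : π i = k := congrArg Fin.val hi
        refine ⟨i, i.2, hi', ?_⟩
        rw [← hi', ← hπ' i i.2, inv_ap, inv_ap, hh' i i.2, hi']
        congr 2
        rw [List.getD_eq_getElem _ _ (by simp)]
        simp only [List.getElem_map, List.getElem_range, hi']
      have hwO := refL_le _ hw
      refine hX a hG (w * g⁻¹ * w⁻¹) (mul_mem (mul_mem hwO (inv_mem hg)) (inv_mem hwO)) ?_
        (h * w⁻¹) (mul_mem hh (inv_mem hw)) ?_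
      · intro x hx
        have hz : g⁻¹ (w⁻¹ x) ∈ LL a :=
          ((inv_mem hg : g⁻¹ ∈ OLat (LL a)).2 _).2 (((inv_mem hwO : w⁻¹ ∈ OLat (LL a)).2 _).2 hx)
        obtain ⟨t, ht, ht'⟩ := hg2 _ hz
        refine ⟨-(w t), (LL a).neg_mem ((hwO.2 _).2 ht), ?_⟩
        rw [ap_inv] at ht'
        have e1 : g⁻¹ (w⁻¹ x) = w⁻¹ x - ((2 : ℕ) : ℝ) • t := by rw [← ht']; abel
        rw [mul_ap, mul_ap, e1, map_sub, map_smul, ap_inv]
        module
      · obtain ⟨i, hi, hi', e0⟩ := hkey 0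
        obtain ⟨j, hj, hj', e2⟩ := hkey 2
        refine ⟨?_, ?_⟩
        · simpa [mul_ap, inv_ap] using e0
        · simpa [mul_ap, inv_ap] using e2
  intro g hg hg2
  have hne : B (g (lv a d.p)) (lv a d.p) ≠ 0 := by
    refine (hT 10 (lv a d.p) (g (lv a d.p)) 0 hpp).1 ?_ ?_
    · intro h0
      have : lv a d.p = 0 := by
        have := congrArg g.symm h0
        simpa using this
      rw [this] at hpp
      simp at hpp
    · rw [hg.1]; exact hpp.le
  rcases lt_or_gt_of_ne hne with h | h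
  · exact ⟨g, key g hg hg2 h, Or.inl fun _ => rfl⟩
  · refine ⟨g.trans (LinearEquiv.neg ℝ), key _ ⟨fun x y => ?_, fun x => ?_⟩ (fun x hx => ?_) ?_,
      Or.inr fun x => ?_⟩
    · simp only [LinearEquiv.trans_apply, LinearEquiv.neg_apply, B_neg_left, B_neg_right, neg_neg]
      exact hg.1 x y
    · simp only [LinearEquiv.trans_apply, LinearEquiv.neg_apply, neg_mem_iff]
      exact hg.2 x
    · obtain ⟨y, hy, hxy⟩ := hg2 x hx
      refine ⟨-y - x, (LL a).sub_mem ((LL a).neg_mem hy) hx, ?_⟩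
      have : g x = x + ((2 : ℕ) : ℝ) • y := by rw [← hxy]; abel
      simp only [LinearEquiv.trans_apply, LinearEquiv.neg_apply, this]
      push_cast
      module
    · simp only [LinearEquiv.trans_apply, LinearEquiv.neg_apply, B_neg_left]
      linarith
    · rfl

end Pool.Agent.CN3

end
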