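import Pool.Agent.Helper25_CN3.Defs

/-!
Squad CN3: the data of the lattice number 0
-/

namespace Pool.Agent.CN3

open Pool.Agent.CN2

/-- the data -/
def dat0 : Dat where
  A := [[0, 0, 1, 0, 0, 0, 0, 0, 0, 0, 0, 0, 0, 0], [0, 0, 0, 0, 0, 0, 0, 0, 1, 1, 0, 0, 0, 0],
    [0, 0, -1, -1, 0, 0, 0, 0, 0, 0, 0, 0, 0, 0], [0, 0, 0, 0, 0, 0, 0, 0, 0, -1, 0, 0, 0, 0], [0,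
    0, 0, 0, 0, 0, 0, 0, 0, 0, 0, -1, 0, -1], [0, 0, 0, 0, 0, 0, 0, 0, 0, 0, 0, 1, 0, 0], [0, 0,
    0, 0, 0, 0, 1, 0, 0, 0, 0, 0, 0, 0], [0, 0, 0, 0, 0, 0, 0, 0, 0, 0, 1, 0, -1, 0], [0, 0, 0, 0,
    -1, -1, -1, 0, -1, 0, 0, 0, 0, 0], [0, 0, 0, 0, 0, 1, 0, 0, 0, 0, 0, 0, 0, 0], [0, 0, 0, 0, 0,
    0, 0, 0, 0, 0, 0, 0, 1, 1], [0, 0, 1, 2, 3, 3, 3, 1, 2, 1, 0, 0, 0, 0], [-1, 0, -1, -2, -3,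
    -5, -6, -3, -4, -2, 0, 0, 0, 0], [-1, 0, 0, 0, 0, 0, 0, 0, 0, 0, -1, -1, -1, 0], [1, -1, 0, 0,
    0, 0, 0, 0, 0, 0, 0, 0, 0, 0]]
  c := [[0, 12, 6, 12, 12, 0, 12, 0, 12, 12, 6, 8, 12, 0, 0], [12, 0, 12, 6, 36, 18, 6, 6, 12, 12,
    24, 10, 18, 6, 0], [6, 12, 0, 9, 30, 9, 15, 3, 6, 18, 18, 7, 21, 3, 0], [12, 6, 9, 0, 42, 18,
    12, 6, 6, 18, 27, 8, 24, 6, 0], [12, 36, 30, 42, 0, 18, 30, 6, 48, 24, 6, 22, 18, 18, 24], [0,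
    18, 9, 18, 18, 36, 18, 12, 18, 18, 15, 6, 18, 36, 36], [12, 6, 15, 12, 30, 18, 0, 6, 18, 6,
    21, 12, 12, 6, 0], [0, 6, 3, 6, 6, 12, 6, 0, 6, 6, 3, 2, 6, 12, 12], [12, 12, 6, 6, 48, 18,
    18, 6, 0, 24, 30, 6, 30, 6, 0], [12, 12, 18, 18, 24, 18, 6, 6, 24, 0, 18, 14, 6, 6, 0], [6,
    24, 18, 27, 6, 15, 21, 3, 30, 18, 0, 13, 15, 21, 24], [8, 10, 7, 8, 22, 6, 12, 2, 6, 14, 13,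
    0, 16, 2, 0], [12, 18, 21, 24, 18, 18, 12, 6, 30, 6, 15, 16, 0, 6, 0], [0, 6, 3, 6, 18, 36, 6,
    12, 6, 6, 21, 2, 6, 12, 12], [0, 0, 0, 0, 24, 36, 0, 12, 0, 0, 24, 0, 0, 12, 0]]
  D := 12
  p := [31, 30, 23, 45, 69, 98, 126, 68, 85, 42, 19, 24, 17, 10]
  cu := [(⟨[0, 0, 0, 0, 2, 3, 0, 1, 0, 0, 2, 0, 0, 1, 0], 1, [1, 0, 0, 0, 0, 0, 0, 0, 0, 0, 0, 0,
    0, 0], [1, 0, 0, 0, 0, 0, 0, 0, 0, 0, 0, 0, 0, 0]⟩, .same), (⟨[2, 4, 4, 5, 0, 0, 3, 0, 6, 2,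
    0, 3, 1, 0, 0], 1, [1, 0, 0, 0, 0, 0, 0, 0, 0, 0, 0, 0, 0, 0], [1, 0, 0, 0, 0, 0, 0, 0, 0, 0,
    0, 0, 0, 0]⟩, .same), (⟨[0, 2, 1, 2, 2, 2, 2, 0, 2, 2, 1, 1, 2, 2, 2], 1, [2, 2, 2, 3, 5, 7,
    9, 5, 6, 3, 2, 2, 1, 1], [0, 0, 0, 0, 0, 0, 0, 0, 0, 0, 0, 0, 0, 1]⟩, .ty ⟨[[0, 0, 0, 0, 0, 0,
    0, 0, 1, 1, 0, 0, 0, 0], [0, 0, 0, 0, 0, 0, 0, 0, 0, -1, 0, 0, 0, 0], [0, 0, 0, 0, 0, 0, 1, 0,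
    0, 0, 0, 0, 0, 0], [0, 0, 0, 0, -1, -1, -1, 0, -1, 0, 0, 0, 0, 0], [0, 0, -1, -1, 0, 0, 0, 0,
    0, 0, 0, 0, 0, 0], [0, 0, 0, 0, 0, 1, 0, 0, 0, 0, 0, 0, 0, 0], [0, 0, 1, 2, 3, 3, 3, 1, 2, 1,
    0, 0, 0, 0], [-1, 0, -1, -2, -3, -5, -6, -3, -4, -2, 0, 0, 0, 0], [1, -1, 0, 0, 0, 0, 0, 0, 0,
    0, 0, 0, 0, 0]], [0, 0, 0, 0, 0, 0, 0, 0, 0], [[20, 20, 16, 20, 10, 12, 10, 8, 4], [20, 24,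
    16, 24, 12, 12, 12, 8, 4], [16, 16, 16, 16, 8, 12, 8, 8, 4], [20, 24, 16, 28, 14, 12, 14, 8,
    4], [10, 12, 8, 14, 9, 6, 7, 4, 2], [12, 12, 12, 12, 6, 12, 6, 8, 4], [10, 12, 8, 14, 7, 6, 9,
    4, 2], [8, 8, 8, 8, 4, 8, 4, 8, 4], [4, 4, 4, 4, 2, 4, 2, 4, 4]], 4⟩ 1 2)]
  κ := [0, 0, 0, 0, 0, 0, 0, 0, 0, 0, 1, 1, 1, 1]
  q := 12
  R := [0, 0, 58, 114, 168, 220, 270, 136, 182, 92, 6, 10, 6, 6]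
  wd := [[], [[0, 0, 0, 0, 0, 0, 0, 0, 0, 0, 0, 0, 1, -1]], [[0, 0, 0, 0, 0, 0, 0, 0, 0, 0, 1, 0,
    -1, 0]], [[0, 0, 0, 0, 0, 0, 0, 0, 0, 0, 1, 0, 0, -1], [0, 0, 0, 0, 0, 0, 0, 0, 0, 0, 1, 0,
    -1, 0]], [[0, 0, 0, 0, 0, 0, 0, 0, 0, 0, 0, 0, 1, -1], [0, 0, 0, 0, 0, 0, 0, 0, 0, 0, 1, 0,
    -1, 0]], [[0, 0, 0, 0, 0, 0, 0, 0, 0, 0, 1, 0, 0, -1]]]

theorem dat0_ok : datB (blk hyp (gr [(.E 8, 1), (.D 4, 1)])) dat0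
    (ok1 (blk hyp (gr [(.E 8, 1), (.D 4, 1)])) dat0) = true := by
  decide +kernel

end Pool.Agent.CN3
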