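import Pool.Agent.Helper25_CN3.Defs

/-!
Squad CN3: the data of the lattice number 1
-/

namespace Pool.Agent.CN3

open Pool.Agent.CN2

/-- the data -/
def dat1 : Dat where
  A := [[0, 0, 0, 0, 0, 1, 0, 0, 0, 0, 0, 0, 0], [0, 0, 0, 0, 0, 0, 0, 0, 0, 0, 0, 1, 0], [0, 0,
    0, 0, 0, -1, -1, 0, 0, 0, 0, 0, 0], [0, 0, 1, 1, 1, 1, 1, 0, 0, 0, 0, 0, 0], [0, 0, 0, 0, 0,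
    0, 0, 0, 0, 0, 1, 0, 0], [0, 0, 0, 0, 1, 1, 1, 1, 0, 0, 0, 0, 0], [0, 0, 0, 0, 0, 1, 2, 1, 1,
    1, 0, 0, 0], [0, 0, -1, -1, -1, -1, -1, -1, 0, 0, 0, 0, 0], [0, 0, 0, 1, 0, 0, 0, 0, 0, 0, 0,
    0, 0], [0, 0, 0, 0, 0, 0, 0, 0, 0, -1, 0, 0, 0], [0, 0, 0, 0, 0, 0, 0, 0, 0, 0, -1, -2, -1],
    [-1, 0, -1, -3, -4, -5, -6, -3, -4, -2, 0, 0, 0], [-1, 0, 0, 0, 0, 0, 0, 0, 0, 0, 0, 0, 1],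
    [1, -1, 0, 0, 0, 0, 0, 0, 0, 0, 0, 0, 0]]
  c := [[0, 4, 6, 8, 2, 12, 7, 10, 14, 8, 2, 16, 2, 0], [4, 24, 12, 12, 12, 12, 6, 12, 12, 0, 12,
    12, 24, 24], [6, 12, 0, 6, 6, 18, 6, 12, 24, 12, 6, 30, 6, 0], [8, 12, 6, 0, 6, 12, 9, 6, 18,
    12, 6, 24, 6, 0], [2, 12, 6, 6, 0, 6, 3, 6, 6, 0, 6, 6, 12, 12], [12, 12, 18, 12, 6, 0, 15, 6,
    6, 12, 6, 12, 6, 0], [7, 6, 6, 9, 3, 15, 0, 12, 18, 6, 3, 21, 3, 0], [10, 12, 12, 6, 6, 6, 12,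
    0, 12, 12, 6, 18, 6, 0], [14, 12, 24, 18, 6, 6, 18, 12, 0, 12, 6, 6, 6, 0], [8, 0, 12, 12, 0,
    12, 6, 12, 12, 0, 0, 12, 0, 0], [2, 12, 6, 6, 6, 6, 3, 6, 6, 0, 3, 6, 12, 12], [16, 12, 30,
    24, 6, 12, 21, 18, 6, 12, 6, 0, 6, 0], [2, 24, 6, 6, 12, 6, 3, 6, 6, 0, 12, 6, 12, 12], [0,
    24, 0, 0, 12, 0, 0, 0, 0, 0, 12, 0, 12, 0]]
  D := 12
  p := [38, 37, 32, 68, 102, 131, 159, 78, 111, 55, 0, -7, -19]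
  cu := [(⟨[0, 2, 0, 0, 1, 0, 0, 0, 0, 0, 1, 0, 1, 0], 1, [1, 0, 0, 0, 0, 0, 0, 0, 0, 0, 0, 0, 0],
    [1, 0, 0, 0, 0, 0, 0, 0, 0, 0, 0, 0, 0]⟩, .same), (⟨[3, 0, 6, 5, 0, 3, 4, 4, 2, 2, 0, 1, 0,
    0], 1, [1, 0, 0, 0, 0, 0, 0, 0, 0, 0, 0, 0, 0], [1, 0, 0, 0, 0, 0, 0, 0, 0, 0, 0, 0, 0]⟩,
    .same), (⟨[1, 2, 2, 2, 0, 2, 1, 2, 2, 0, 1, 2, 2, 2], 1, [2, 2, 2, 4, 6, 8, 10, 5, 7, 3, 1, 0,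
    -1], [0, 0, 0, 0, 0, 0, 0, 0, 0, 0, 0, 0, -1]⟩, .ty ⟨[[0, 0, 0, 0, 0, 1, 0, 0, 0, 0, 0, 0, 0],
    [0, 0, 0, 0, 0, -1, -1, 0, 0, 0, 0, 0, 0], [0, 0, 1, 1, 1, 1, 1, 0, 0, 0, 0, 0, 0], [0, 0, 0,
    0, 0, 1, 2, 1, 1, 1, 0, 0, 0], [0, 0, -1, -1, -1, -1, -1, -1, 0, 0, 0, 0, 0], [0, 0, 0, 0, 1,
    1, 1, 1, 0, 0, 0, 0, 0], [0, 0, 0, 1, 0, 0, 0, 0, 0, 0, 0, 0, 0], [-1, 0, -1, -3, -4, -5, -6,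
    -3, -4, -2, 0, 0, 0], [1, -1, 0, 0, 0, 0, 0, 0, 0, 0, 0, 0, 0]], [0, 0, 0, 0, 0, 0, 0, 0, 0],
    [[9, 14, 12, 7, 10, 8, 6, 4, 2], [14, 28, 24, 14, 20, 16, 12, 8, 4], [12, 24, 24, 12, 20, 16,
    12, 8, 4], [7, 14, 12, 9, 10, 8, 6, 4, 2], [10, 20, 20, 10, 20, 16, 12, 8, 4], [8, 16, 16, 8,
    16, 16, 12, 8, 4], [6, 12, 12, 6, 12, 12, 12, 8, 4], [4, 8, 8, 4, 8, 8, 8, 8, 4], [2, 4, 4, 2,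
    4, 4, 4, 4, 4]], 4⟩ 1 2)]
  κ := [0, 0, 0, 0, 0, 0, 0, 0, 0, 0, 1, 1, 1]
  q := 11
  R := [0, 0, 58, 114, 168, 220, 270, 136, 182, 92, 3, 4, 3]
  wd := [[], [[0, 0, 0, 0, 0, 0, 0, 0, 0, 0, 1, 0, -1]]]

theorem dat1_ok : datB (blk hyp (gr [(.E 8, 1), (.A 3, 1)])) dat1
    (ok1 (blk hyp (gr [(.E 8, 1), (.A 3, 1)])) dat1) = true := by
  decide +kernel

end Pool.Agent.CN3
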