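import Pool.Agent.Helper25_CN3.Defs

/-!
Squad CN3: the data of the lattice number 10
-/

namespace Pool.Agent.CN3

open Pool.Agent.CN2

/-- the data -/
def dat10 : Dat where
  A := [[0, 0, 0, 0, 0, 0, 0, 1, 0, 0, 0], [0, 0, 0, 0, 0, 0, 0, -1, -1, 0, 0], [0, 0, 0, 0, 1, 1,
    1, 1, 1, 0, 0], [0, 0, 0, -1, -2, -2, -1, -1, 0, 0, 0], [0, 0, 0, 1, 2, 3, 1, 2, 1, 0, 0], [0,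
    0, 0, 1, 0, 0, 0, 0, 0, 0, 0], [0, 0, 1, 1, 1, 0, 0, 0, 0, 0, 0], [0, 0, 0, 0, 0, 0, 0, 0, 0,
    -1, 0], [0, 0, 0, 0, 0, 0, 0, 0, 0, 1, 1], [-1, 0, -1, -2, -2, -3, -2, -2, -1, 0, 0], [-1, 0,
    0, 0, 0, 0, 0, 0, 0, 0, -1], [1, -1, 0, 0, 0, 0, 0, 0, 0, 0, 0], [-2, -2, -3, -4, -5, -6, -3,
    -4, -2, 1, -1]]
  c := [[0, 2, 2, 2, 2, 2, 2, 0, 1, 2, 2, 2, 1], [2, 0, 0, 2, 4, 0, 6, 0, 0, 0, 0, 0, 4], [2, 0,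
    0, 0, 0, 2, 0, 2, 5, 4, 8, 6, 0], [2, 2, 0, 0, 2, 0, 4, 0, 0, 0, 0, 0, 3], [2, 4, 0, 2, 0, 0,
    2, 0, 0, 0, 0, 0, 2], [2, 0, 2, 0, 0, 0, 0, 2, 4, 2, 6, 4, 0], [2, 6, 0, 4, 2, 0, 0, 0, 0, 0,
    0, 0, 1], [0, 0, 2, 0, 0, 2, 0, 0, 1, 2, 2, 2, 0], [1, 0, 5, 0, 0, 4, 0, 1, 0, 3, 1, 2, 0],
    [2, 0, 4, 0, 0, 2, 0, 2, 3, 0, 4, 2, 0], [2, 0, 8, 0, 0, 6, 0, 2, 1, 4, 0, 2, 0], [2, 0, 6, 0,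
    0, 4, 0, 2, 2, 2, 2, 0, 0], [1, 4, 0, 3, 2, 0, 1, 0, 0, 0, 0, 0, 0]]
  D := 4
  p := [22, 21, 18, 25, 31, 45, 26, 30, 14, -6, 8]
  cu := [(⟨[0, 0, 0, 0, 0, 0, 1, 0, 0, 0, 0, 0, 1], 1, [2, 2, 2, 3, 4, 6, 3, 4, 2, -1, 1], [0, 0,
    0, 0, 0, 0, 0, 0, 0, 0, 1]⟩, .ty ⟨[[0, 0, 0, 0, 0, 0, 0, 1, 0, 0, 0], [0, 0, 0, 0, 0, 0, 0,
    -1, -1, 0, 0], [0, 0, 0, 0, 1, 1, 1, 1, 1, 0, 0], [0, 0, 0, -1, -2, -2, -1, -1, 0, 0, 0], [0,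
    0, 0, 1, 0, 0, 0, 0, 0, 0, 0], [-1, 0, -1, -2, -2, -3, -2, -2, -1, 0, 0], [1, -1, 0, 0, 0, 0,
    0, 0, 0, 0, 0], [-1, 0, 0, 0, 0, 0, 0, 0, 0, 0, -1]], [0, 0, 0, 0, 0, 0, 0, 0], [[4, 6, 5, 3,
    4, 3, 2, 1], [6, 12, 10, 6, 8, 6, 4, 2], [5, 10, 10, 5, 8, 6, 4, 2], [3, 6, 5, 4, 4, 3, 2, 1],
    [4, 8, 8, 4, 8, 6, 4, 2], [3, 6, 6, 3, 6, 6, 4, 2], [2, 4, 4, 2, 4, 4, 4, 2], [1, 2, 2, 1, 2,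
    2, 2, 2]], 2⟩ 1 3), (⟨[0, 0, 0, 0, 0, 0, 0, 1, 0, 0, 0, 0, 1], 1, [2, 2, 3, 4, 5, 6, 3, 4, 2,
    0, 1], [0, 0, 0, 0, 0, 0, 0, 0, 0, 0, 1]⟩, .dv), (⟨[0, 0, 0, 0, 0, 0, 0, 1, 1, 0, 1, 0, 0], 1,
    [1, 0, 0, 0, 0, 0, 0, 0, 0, 0, 0], [1, 0, 0, 0, 0, 0, 0, 0, 0, 0, 0]⟩, .same), (⟨[2, 4, 3, 3,
    2, 2, 1, 0, 0, 1, 0, 0, 0], 1, [1, 0, 0, 0, 0, 0, 0, 0, 0, 0, 0], [1, 0, 0, 0, 0, 0, 0, 0, 0,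
    0, 0]⟩, .same), (⟨[1, 2, 2, 1, 0, 2, 0, 0, 1, 2, 2, 2, 0], 1, [2, 2, 2, 3, 4, 6, 3, 4, 2, -1,
    1], [0, 0, 0, 0, 0, 0, 0, 0, 0, 0, 1]⟩, .ty ⟨[[0, 0, 0, 0, 0, 0, 0, 1, 0, 0, 0], [0, 0, 0, 0,
    0, 0, 0, -1, -1, 0, 0], [0, 0, 0, 0, 1, 1, 1, 1, 1, 0, 0], [0, 0, 0, -1, -2, -2, -1, -1, 0, 0,
    0], [0, 0, 0, 1, 0, 0, 0, 0, 0, 0, 0], [-1, 0, -1, -2, -2, -3, -2, -2, -1, 0, 0], [1, -1, 0,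
    0, 0, 0, 0, 0, 0, 0, 0], [-1, 0, 0, 0, 0, 0, 0, 0, 0, 0, -1]], [0, 0, 0, 0, 0, 0, 0, 0], [[4,
    6, 5, 3, 4, 3, 2, 1], [6, 12, 10, 6, 8, 6, 4, 2], [5, 10, 10, 5, 8, 6, 4, 2], [3, 6, 5, 4, 4,
    3, 2, 1], [4, 8, 8, 4, 8, 6, 4, 2], [3, 6, 6, 3, 6, 6, 4, 2], [2, 4, 4, 2, 4, 4, 4, 2], [1, 2,
    2, 1, 2, 2, 2, 2]], 2⟩ 1 3), (⟨[3, 6, 5, 4, 2, 4, 0, 0, 0, 3, 1, 2, 0], 1, [2, 2, 3, 4, 5, 6,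
    3, 4, 2, 0, 1], [0, 0, 0, 0, 0, 0, 0, 0, 0, 0, 1]⟩, .dv)]
  κ := [0, 0, 0, 0, 0, 0, 0, 0, 0, 1, 2]
  q := 9
  R := [0, 0, 27, 52, 75, 96, 49, 66, 34, 1, 1]
  wd := [[], [[0, 0, 0, 0, 0, 0, 0, 0, 0, 1, -1]]]

theorem dat10_ok : datB (blk hyp (gr [(.E 7, 1), (.A 1, 1), (.A 1, 1)])) dat10
    (ok1 (blk hyp (gr [(.E 7, 1), (.A 1, 1), (.A 1, 1)])) dat10) = true := by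
  decide +kernel

end Pool.Agent.CN3
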