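import Pool.Agent.Helper25_CN3.Defs

/-!
Squad CN3: the data of the lattice number 11
-/

namespace Pool.Agent.CN3

open Pool.Agent.CN2

/-- the data -/
def dat11 : Dat where
  A := [[0, 0, 0, 0, 0, 0, 0, 1, 0, 0, 0], [0, 0, 0, 0, 0, 0, 0, -1, -1, 0, 0], [0, 0, 0, -1, -1,
    0, -1, 0, 0, 0, 0], [0, 0, 0, 0, 1, 1, 1, 0, 0, 0, 0], [0, 0, 0, 1, 0, 0, 0, 0, 0, 0, 0], [0,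
    0, 0, 0, 0, 0, 0, 1, 2, 2, 1], [0, 0, 0, 0, 0, -1, 1, 0, 0, 0, 0], [0, 0, 1, 1, 1, 0, 0, 0, 0,
    0, 0], [0, 0, 0, 0, 0, 0, 0, -1, 0, -1, 0], [-1, 0, 0, 0, 0, 0, 0, 0, 0, 0, -1], [-1, 0, -1,
    -1, -1, -1, -1, 0, 0, 0, 0], [1, -1, 0, 0, 0, 0, 0, 0, 0, 0, 0], [-4, -4, -2, 0, 2, 1, -1, -2,
    -4, -2, -4]]
  c := [[0, 4, 0, 0, 0, 4, 0, 4, 2, 8, 0, 0, 0], [4, 0, 0, 0, 0, 4, 0, 4, 4, 4, 0, 0, 0], [0, 0,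
    0, 8, 4, 0, 2, 4, 0, 0, 8, 8, 2], [0, 0, 8, 0, 4, 0, 6, 4, 0, 0, 4, 8, 2], [0, 0, 4, 4, 0, 0,
    4, 4, 0, 0, 6, 8, 2], [4, 4, 0, 0, 0, 0, 0, 0, 2, 4, 0, 0, 0], [0, 0, 2, 6, 4, 0, 0, 2, 0, 0,
    5, 4, 1], [4, 4, 4, 4, 4, 0, 2, 0, 2, 4, 6, 8, 0], [2, 4, 0, 0, 0, 2, 0, 2, 0, 6, 0, 0, 0],
    [8, 4, 0, 0, 0, 4, 0, 4, 6, 0, 0, 0, 0], [0, 0, 8, 4, 6, 0, 5, 6, 0, 0, 0, 4, 1], [0, 0, 8, 8,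
    8, 0, 4, 8, 0, 0, 4, 0, 0], [0, 0, 2, 2, 2, 0, 1, 0, 0, 0, 1, 0, 0]]
  D := 8
  p := [41, 40, 21, 10, -4, 2, 10, 12, 20, 6, 28]
  cu := [(⟨[0, 0, 0, 0, 0, 0, 1, 0, 0, 0, 0, 0, 1], 2, [2, 2, 1, 0, -1, 0, 0, 1, 2, 1, 2], [0, 0,
    0, 0, 0, 0, 0, 0, 0, 1, 0]⟩, .ty ⟨[[0, 0, 0, 0, 0, 0, 0, 1, 0, 0, 0], [0, 0, 0, 0, 0, 0, 0,
    -1, -1, 0, 0], [-1, 0, 0, 0, 0, 0, 0, 0, 0, 0, -1], [1, -1, 0, 0, 0, 0, 0, 0, 0, 0, 0], [-1,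
    0, -1, -1, -1, -1, -1, 0, 0, 0, 0], [0, 0, 0, 0, 1, 1, 1, 0, 0, 0, 0]], [0, 0, 0, 0, 0, 0],
    [[6, 5, 4, 3, 2, 1], [5, 10, 8, 6, 4, 2], [4, 8, 12, 9, 6, 3], [3, 6, 9, 12, 8, 4], [2, 4, 6,
    8, 10, 5], [1, 2, 3, 4, 5, 6]], 7⟩ 1 2), (⟨[0, 0, 0, 0, 0, 1, 0, 0, 0, 0, 0, 0, 1], 1, [4, 4,
    2, 0, -2, -1, 1, 1, 2, 0, 3], [0, 0, 0, 0, 0, 0, 0, 1, 0, 0, 0]⟩, .dv), (⟨[3, 2, 0, 0, 0, 1,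
    0, 0, 2, 1, 0, 0, 0], 1, [1, 0, 0, 0, 0, 0, 0, 0, 0, 0, 0], [1, 0, 0, 0, 0, 0, 0, 0, 0, 0,
    0]⟩, .same), (⟨[0, 0, 2, 2, 2, 0, 1, 1, 0, 0, 1, 0, 0], 1, [1, 0, 0, 0, 0, 0, 0, 0, 0, 0, 0],
    [1, 0, 0, 0, 0, 0, 0, 0, 0, 0, 0]⟩, .same), (⟨[2, 2, 0, 2, 1, 0, 0, 1, 1, 2, 2, 2, 0], 1, [2,
    2, 1, 0, -1, 0, 0, 1, 2, 1, 2], [0, 0, 0, 0, 0, 0, 0, 0, 0, 1, 0]⟩, .ty ⟨[[0, 0, 0, 0, 0, 0,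
    0, 1, 0, 0, 0], [0, 0, 0, 0, 0, 0, 0, -1, -1, 0, 0], [-1, 0, 0, 0, 0, 0, 0, 0, 0, 0, -1], [1,
    -1, 0, 0, 0, 0, 0, 0, 0, 0, 0], [-1, 0, -1, -1, -1, -1, -1, 0, 0, 0, 0], [0, 0, 0, 0, 1, 1, 1,
    0, 0, 0, 0]], [0, 0, 0, 0, 0, 0], [[6, 5, 4, 3, 2, 1], [5, 10, 8, 6, 4, 2], [4, 8, 12, 9, 6,
    3], [3, 6, 9, 12, 8, 4], [2, 4, 6, 8, 10, 5], [1, 2, 3, 4, 5, 6]], 7⟩ 1 2), (⟨[1, 2, 2, 6, 4,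
    0, 0, 3, 0, 3, 5, 4, 0], 1, [4, 4, 2, 0, -2, -1, 1, 1, 2, 0, 3], [0, 0, 0, 0, 0, 0, 0, 1, 0,
    0, 0]⟩, .dv), (⟨[2, 2, 2, 2, 2, 0, 1, 0, 1, 2, 2, 2, 0], 1, [2, 2, 2, 2, 2, 1, 1, 1, 2, 1, 2],
    [0, 0, 0, 0, 0, 0, 0, 0, 0, 1, 0]⟩, .dv)]
  κ := [0, 0, 0, 0, 0, 0, 0, 1, 1, 1, 1]
  q := 9
  R := [0, 0, 8, 14, 18, 10, 10, 6, 10, 6, 6]
  wd := [[], [[0, 0, 0, 0, 0, 0, 0, 0, 0, 1, -1]], [[0, 0, 0, 0, 0, 0, 0, 1, 0, -1, 0]], [[0, 0,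
    0, 0, 0, 0, 0, 1, 0, 0, -1], [0, 0, 0, 0, 0, 0, 0, 1, 0, -1, 0]], [[0, 0, 0, 0, 0, 0, 0, 0, 0,
    1, -1], [0, 0, 0, 0, 0, 0, 0, 1, 0, -1, 0]], [[0, 0, 0, 0, 0, 0, 0, 1, 0, 0, -1]], [[0, 0, 0,
    0, 0, 1, -1, 0, 0, 0, 0]], [[0, 0, 0, 0, 0, 0, 0, 0, 0, 1, -1], [0, 0, 0, 0, 0, 1, -1, 0, 0,
    0, 0]], [[0, 0, 0, 0, 0, 0, 0, 1, 0, -1, 0], [0, 0, 0, 0, 0, 1, -1, 0, 0, 0, 0]], [[0, 0, 0,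
    0, 0, 0, 0, 1, 0, 0, -1], [0, 0, 0, 0, 0, 0, 0, 1, 0, -1, 0], [0, 0, 0, 0, 0, 1, -1, 0, 0, 0,
    0]], [[0, 0, 0, 0, 0, 0, 0, 0, 0, 1, -1], [0, 0, 0, 0, 0, 0, 0, 1, 0, -1, 0], [0, 0, 0, 0, 0,
    1, -1, 0, 0, 0, 0]], [[0, 0, 0, 0, 0, 0, 0, 1, 0, 0, -1], [0, 0, 0, 0, 0, 1, -1, 0, 0, 0, 0]]]

theorem dat11_ok : datB (blk hyp (gr [(.D 5, 1), (.D 4, 1)])) dat11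
    (ok1 (blk hyp (gr [(.D 5, 1), (.D 4, 1)])) dat11) = true := by
  decide +kernel

end Pool.Agent.CN3
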