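import Pool.Agent.Helper25_CN3.Defs

/-!
Squad CN3: the data of the lattice number 2
-/

namespace Pool.Agent.CN3

open Pool.Agent.CN2

/-- the data -/
def dat2 : Dat where
  A := [[0, 0, 0, 0, 0, 1, 0, 0, 0, 0, 0, 0, 0], [0, 0, 0, 0, 0, 0, 0, 0, 0, 0, 0, 1, 0], [0, 0,
    0, 0, 0, -1, -1, 0, 0, 0, 0, 0, 0], [0, 0, 1, 1, 1, 1, 1, 0, 0, 0, 0, 0, 0], [0, 0, 0, 0, 0,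
    0, 0, 0, 0, 0, 1, -1, 0], [0, 0, 0, 0, 1, 1, 1, 1, 0, 0, 0, 0, 0], [0, 0, 0, 0, 0, 1, 2, 1, 1,
    1, 0, 0, 0], [0, 0, -1, -1, -1, -1, -1, -1, 0, 0, 0, 0, 0], [0, 0, 0, 1, 0, 0, 0, 0, 0, 0, 0,
    0, 0], [0, 0, 0, 0, 0, 0, 0, 0, 0, -1, 0, 0, 0], [0, 0, 0, 0, 0, 0, 0, 0, 0, 0, -1, 0, -1],
    [-1, 0, -1, -3, -4, -5, -6, -3, -4, -2, 0, 0, 0], [-1, 0, 0, 0, 0, 0, 0, 0, 0, 0, 0, 0, 1],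
    [1, -1, 0, 0, 0, 0, 0, 0, 0, 0, 0, 0, 0], [-2, -2, -2, -4, -6, -8, -10, -5, -7, -3, -1, -1,
    1]]
  c := [[0, 1, 2, 3, 0, 5, 2, 4, 2, 2, 1, 2, 2, 2, 2], [1, 0, 4, 3, 0, 1, 3, 2, 0, 2, 0, 0, 0, 0,
    1], [2, 4, 0, 2, 0, 6, 2, 4, 0, 4, 0, 0, 0, 0, 6], [3, 3, 2, 0, 0, 4, 3, 2, 0, 4, 0, 0, 0, 0,
    5], [0, 0, 0, 0, 0, 0, 0, 0, 2, 0, 1, 2, 2, 2, 0], [5, 1, 6, 4, 0, 0, 5, 2, 0, 4, 0, 0, 0, 0,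
    3], [2, 3, 2, 3, 0, 5, 0, 4, 0, 2, 0, 0, 0, 0, 4], [4, 2, 4, 2, 0, 2, 4, 0, 0, 4, 0, 0, 0, 0,
    4], [2, 0, 0, 0, 2, 0, 0, 0, 0, 0, 4, 2, 6, 4, 0], [2, 2, 4, 4, 0, 4, 2, 4, 0, 0, 0, 0, 0, 0,
    2], [1, 0, 0, 0, 1, 0, 0, 0, 4, 0, 0, 3, 1, 2, 0], [2, 0, 0, 0, 2, 0, 0, 0, 2, 0, 3, 0, 4, 2,
    0], [2, 0, 0, 0, 2, 0, 0, 0, 6, 0, 1, 4, 0, 2, 0], [2, 0, 0, 0, 2, 0, 0, 0, 4, 0, 2, 2, 2, 0,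
    0], [2, 1, 6, 5, 0, 3, 4, 4, 0, 2, 0, 0, 0, 0, 0]]
  D := 4
  p := [32, 31, 26, 55, 83, 107, 130, 64, 91, 45, 11, 9, -14]
  cu := [(⟨[0, 1, 0, 0, 0, 0, 0, 0, 0, 0, 0, 0, 0, 0, 1], 1, [2, 2, 2, 4, 6, 8, 10, 5, 7, 3, 1, 0,
    -1], [0, 0, 0, 0, 0, 0, 0, 0, 0, 0, 0, 0, -1]⟩, .ty ⟨[[0, 0, 0, 0, 0, 1, 0, 0, 0, 0, 0, 0, 0],
    [0, 0, 0, 0, 0, -1, -1, 0, 0, 0, 0, 0, 0], [0, 0, 1, 1, 1, 1, 1, 0, 0, 0, 0, 0, 0], [0, 0, 0,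
    0, 0, 1, 2, 1, 1, 1, 0, 0, 0], [0, 0, -1, -1, -1, -1, -1, -1, 0, 0, 0, 0, 0], [0, 0, 0, 0, 1,
    1, 1, 1, 0, 0, 0, 0, 0], [0, 0, 0, 1, 0, 0, 0, 0, 0, 0, 0, 0, 0], [-1, 0, -1, -3, -4, -5, -6,
    -3, -4, -2, 0, 0, 0], [1, -1, 0, 0, 0, 0, 0, 0, 0, 0, 0, 0, 0]], [0, 0, 0, 0, 0, 0, 0, 0, 0],
    [[9, 14, 12, 7, 10, 8, 6, 4, 2], [14, 28, 24, 14, 20, 16, 12, 8, 4], [12, 24, 24, 12, 20, 16,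
    12, 8, 4], [7, 14, 12, 9, 10, 8, 6, 4, 2], [10, 20, 20, 10, 20, 16, 12, 8, 4], [8, 16, 16, 8,
    16, 16, 12, 8, 4], [6, 12, 12, 6, 12, 12, 12, 8, 4], [4, 8, 8, 4, 8, 8, 8, 8, 4], [2, 4, 4, 2,
    4, 4, 4, 4, 4]], 4⟩ 1 4), (⟨[0, 1, 0, 0, 1, 0, 0, 0, 0, 0, 1, 0, 1, 0, 0], 1, [1, 0, 0, 0, 0,
    0, 0, 0, 0, 0, 0, 0, 0], [1, 0, 0, 0, 0, 0, 0, 0, 0, 0, 0, 0, 0]⟩, .same), (⟨[0, 0, 0, 0, 1,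
    0, 0, 0, 0, 0, 2, 1, 3, 2, 0], 1, [2, 2, 1, 3, 4, 5, 6, 3, 4, 2, 1, 1, -1], [0, 0, 0, 0, 0, 0,
    0, 0, 0, 0, 0, 0, -1]⟩, .ty ⟨[[0, 0, 0, 0, 0, -1, -1, 0, 0, 0, 0, 0, 0], [0, 0, 1, 1, 1, 1, 1,
    0, 0, 0, 0, 0, 0], [0, 0, 0, 0, 0, 1, 2, 1, 1, 1, 0, 0, 0], [0, 0, -1, -1, -1, -1, -1, -1, 0,
    0, 0, 0, 0], [0, 0, 0, 0, 1, 1, 1, 1, 0, 0, 0, 0, 0], [0, 0, 0, 0, 0, 0, 0, 0, 0, -1, 0, 0,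
    0], [-1, 0, -1, -3, -4, -5, -6, -3, -4, -2, 0, 0, 0], [1, -1, 0, 0, 0, 0, 0, 0, 0, 0, 0, 0,
    0], [-1, 0, 0, 0, 0, 0, 0, 0, 0, 0, 0, 0, 1]], [0, 0, 0, 0, 0, 0, 1, 1, 1], [[48, 36, 32, 24,
    12, 16, 0, 0, 0], [36, 48, 24, 32, 16, 12, 0, 0, 0], [32, 24, 40, 16, 8, 20, 0, 0, 0], [24,
    32, 16, 40, 20, 8, 0, 0, 0], [12, 16, 8, 20, 24, 4, 0, 0, 0], [16, 12, 20, 8, 4, 24, 0, 0, 0],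
    [0, 0, 0, 0, 0, 0, 21, 14, 7], [0, 0, 0, 0, 0, 0, 14, 28, 14], [0, 0, 0, 0, 0, 0, 7, 14, 21]],
    28⟩ 2 4), (⟨[2, 0, 4, 3, 0, 1, 3, 2, 0, 2, 0, 0, 0, 0, 1], 1, [2, 2, 1, 3, 4, 5, 6, 3, 4, 2,
    1, 1, -1], [0, 0, 0, 0, 0, 0, 0, 0, 0, 0, 0, 0, -1]⟩, .ty ⟨[[0, 0, 0, 0, 0, -1, -1, 0, 0, 0,
    0, 0, 0], [0, 0, 1, 1, 1, 1, 1, 0, 0, 0, 0, 0, 0], [0, 0, 0, 0, 0, 1, 2, 1, 1, 1, 0, 0, 0],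
    [0, 0, -1, -1, -1, -1, -1, -1, 0, 0, 0, 0, 0], [0, 0, 0, 0, 1, 1, 1, 1, 0, 0, 0, 0, 0], [0, 0,
    0, 0, 0, 0, 0, 0, 0, -1, 0, 0, 0], [-1, 0, -1, -3, -4, -5, -6, -3, -4, -2, 0, 0, 0], [1, -1,
    0, 0, 0, 0, 0, 0, 0, 0, 0, 0, 0], [-1, 0, 0, 0, 0, 0, 0, 0, 0, 0, 0, 0, 1]], [0, 0, 0, 0, 0,
    0, 1, 1, 1], [[48, 36, 32, 24, 12, 16, 0, 0, 0], [36, 48, 24, 32, 16, 12, 0, 0, 0], [32, 24,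
    40, 16, 8, 20, 0, 0, 0], [24, 32, 16, 40, 20, 8, 0, 0, 0], [12, 16, 8, 20, 24, 4, 0, 0, 0],
    [16, 12, 20, 8, 4, 24, 0, 0, 0], [0, 0, 0, 0, 0, 0, 21, 14, 7], [0, 0, 0, 0, 0, 0, 14, 28,
    14], [0, 0, 0, 0, 0, 0, 7, 14, 21]], 28⟩ 2 4), (⟨[3, 0, 6, 5, 0, 3, 4, 4, 2, 2, 0, 1, 0, 0,
    0], 1, [1, 0, 0, 0, 0, 0, 0, 0, 0, 0, 0, 0, 0], [1, 0, 0, 0, 0, 0, 0, 0, 0, 0, 0, 0, 0]⟩,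
    .same), (⟨[1, 0, 2, 2, 0, 2, 1, 2, 2, 0, 1, 2, 2, 2, 0], 1, [2, 2, 2, 4, 6, 8, 10, 5, 7, 3, 1,
    0, -1], [0, 0, 0, 0, 0, 0, 0, 0, 0, 0, 0, 0, -1]⟩, .ty ⟨[[0, 0, 0, 0, 0, 1, 0, 0, 0, 0, 0, 0,
    0], [0, 0, 0, 0, 0, -1, -1, 0, 0, 0, 0, 0, 0], [0, 0, 1, 1, 1, 1, 1, 0, 0, 0, 0, 0, 0], [0, 0,
    0, 0, 0, 1, 2, 1, 1, 1, 0, 0, 0], [0, 0, -1, -1, -1, -1, -1, -1, 0, 0, 0, 0, 0], [0, 0, 0, 0,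
    1, 1, 1, 1, 0, 0, 0, 0, 0], [0, 0, 0, 1, 0, 0, 0, 0, 0, 0, 0, 0, 0], [-1, 0, -1, -3, -4, -5,
    -6, -3, -4, -2, 0, 0, 0], [1, -1, 0, 0, 0, 0, 0, 0, 0, 0, 0, 0, 0]], [0, 0, 0, 0, 0, 0, 0, 0,
    0], [[9, 14, 12, 7, 10, 8, 6, 4, 2], [14, 28, 24, 14, 20, 16, 12, 8, 4], [12, 24, 24, 12, 20,
    16, 12, 8, 4], [7, 14, 12, 9, 10, 8, 6, 4, 2], [10, 20, 20, 10, 20, 16, 12, 8, 4], [8, 16, 16,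
    8, 16, 16, 12, 8, 4], [6, 12, 12, 6, 12, 12, 12, 8, 4], [4, 8, 8, 4, 8, 8, 8, 8, 4], [2, 4, 4,
    2, 4, 4, 4, 4, 4]], 4⟩ 1 4)]
  κ := [0, 0, 0, 0, 0, 0, 0, 0, 0, 0, 1, 2, 3]
  q := 11
  R := [0, 0, 58, 114, 168, 220, 270, 136, 182, 92, 1, 1, 1]
  wd := [[], [[0, 0, 0, 0, 0, 0, 0, 0, 0, 0, 0, 1, -1]], [[0, 0, 0, 0, 0, 0, 0, 0, 0, 0, 1, -1,
    0]], [[0, 0, 0, 0, 0, 0, 0, 0, 0, 0, 1, 0, -1], [0, 0, 0, 0, 0, 0, 0, 0, 0, 0, 1, -1, 0]],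
    [[0, 0, 0, 0, 0, 0, 0, 0, 0, 0, 0, 1, -1], [0, 0, 0, 0, 0, 0, 0, 0, 0, 0, 1, -1, 0]], [[0, 0,
    0, 0, 0, 0, 0, 0, 0, 0, 1, 0, -1]]]

theorem dat2_ok : datB (blk hyp (gr [(.E 8, 1), (.A 1, 1), (.A 1, 1), (.A 1, 1)])) dat2
    (ok1 (blk hyp (gr [(.E 8, 1), (.A 1, 1), (.A 1, 1), (.A 1, 1)])) dat2) = true := by
  decide +kernel

end Pool.Agent.CN3
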