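import Pool.Agent.Helper25_CN3.Defs

/-!
Squad CN3: the data of the lattice number 3
-/

namespace Pool.Agent.CN3

open Pool.Agent.CN2

/-- the data -/
def dat3 : Dat where
  A := [[0, 0, 0, 0, 1, 0, 0, 0, 0, 0, 0, 0], [0, 0, 0, 0, 0, 0, 0, 0, 0, 0, 1, 1], [0, 0, 0, 0,
    -1, -1, 0, 0, 0, 0, 0, 0], [0, 0, 1, 1, 1, 2, 2, 1, 2, 1, 0, 0], [0, 0, 0, 0, 0, 0, 0, 0, 0,
    0, -1, -2], [0, 0, 0, 0, 1, 2, 2, 1, 1, 1, 0, 0], [0, 0, -1, -1, -1, -1, -2, -1, -1, -1, 0,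
    0], [0, 0, 0, 1, 1, 1, 1, 0, 1, 1, 0, 0], [0, 0, 0, -1, -2, -3, -4, -2, -3, -2, 0, 0], [0, 0,
    0, 0, 0, 0, 0, 1, 0, 0, 0, 0], [-1, 0, 1, 2, 3, 4, 5, 2, 3, 1, 0, 0], [-1, 0, 0, 0, 0, 0, 0,
    0, 0, 0, -1, 0], [1, -1, 0, 0, 0, 0, 0, 0, 0, 0, 0, 0]]
  c := [[0, 6, 6, 6, 3, 9, 7, 15, 12, 18, 21, 3, 0], [6, 24, 12, 0, 12, 12, 4, 12, 12, 12, 12, 24,
    24], [6, 12, 0, 12, 6, 6, 6, 18, 12, 24, 30, 6, 0], [6, 0, 12, 0, 0, 12, 8, 12, 12, 12, 12, 0,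
    0], [3, 12, 6, 0, 4, 6, 2, 6, 6, 6, 6, 12, 12], [9, 12, 6, 12, 6, 0, 8, 12, 6, 18, 24, 6, 0],
    [7, 4, 6, 8, 2, 8, 0, 12, 10, 14, 16, 2, 0], [15, 12, 18, 12, 6, 12, 12, 0, 6, 6, 12, 6, 0],
    [12, 12, 12, 12, 6, 6, 10, 6, 0, 12, 18, 6, 0], [18, 12, 24, 12, 6, 18, 14, 6, 12, 0, 6, 6,
    0], [21, 12, 30, 12, 6, 24, 16, 12, 18, 6, 0, 6, 0], [3, 24, 6, 0, 12, 6, 2, 6, 6, 6, 6, 12,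
    12], [0, 24, 0, 0, 12, 0, 0, 0, 0, 0, 0, 12, 0]]
  D := 12
  p := [31, 30, -22, -49, -67, -86, -103, -51, -61, -23, 9, -5]
  cu := [(⟨[0, 2, 0, 0, 1, 0, 0, 0, 0, 0, 0, 1, 0], 1, [1, 0, 0, 0, 0, 0, 0, 0, 0, 0, 0, 0], [1,
    0, 0, 0, 0, 0, 0, 0, 0, 0, 0, 0]⟩, .same), (⟨[4, 0, 6, 2, 0, 5, 3, 3, 4, 2, 1, 0, 0], 1, [1,
    0, 0, 0, 0, 0, 0, 0, 0, 0, 0, 0], [1, 0, 0, 0, 0, 0, 0, 0, 0, 0, 0, 0]⟩, .same)]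
  κ := [0, 0, 0, 0, 0, 0, 0, 0, 0, 0, 1, 1]
  q := 10
  R := [0, 0, 58, 114, 168, 220, 270, 136, 182, 92, 2, 2]
  wd := [[], [[0, 0, 0, 0, 0, 0, 0, 0, 0, 0, 1, -1]]]

theorem dat3_ok : datB (blk hyp (gr [(.E 8, 1), (.A 2, 1)])) dat3
    (ok1 (blk hyp (gr [(.E 8, 1), (.A 2, 1)])) dat3) = true := by
  decide +kernel

end Pool.Agent.CN3
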