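import Pool.Agent.Helper25_CN3.Defs

/-!
Squad CN3: the data of the lattice number 4
-/

namespace Pool.Agent.CN3

open Pool.Agent.CN2

/-- the data -/
def dat4 : Dat where
  A := [[0, 0, 0, 0, 1, 0, 0, 0, 0, 0, 0, 0], [0, 0, 0, 0, 0, 0, 0, 0, 0, 0, 1, 1], [0, 0, 0, 0,
    -1, -1, 0, 0, 0, 0, 0, 0], [0, 0, 1, 1, 1, 2, 2, 1, 2, 1, 0, 0], [0, 0, 0, 0, 1, 2, 2, 1, 1,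
    1, 0, 0], [0, 0, 0, 0, 0, 0, 0, 0, 0, 0, 0, -1], [0, 0, -1, -1, -1, -1, -2, -1, -1, -1, 0, 0],
    [0, 0, 0, 1, 1, 1, 1, 0, 1, 1, 0, 0], [0, 0, 0, -1, -2, -3, -4, -2, -3, -2, 0, 0], [0, 0, 0,
    0, 0, 0, 0, 1, 0, 0, 0, 0], [-1, 0, 1, 2, 3, 4, 5, 2, 3, 1, 0, 0], [-1, 0, 0, 0, 0, 0, 0, 0,
    0, 0, -1, 0], [1, -1, 0, 0, 0, 0, 0, 0, 0, 0, 0, 0]]
  c := [[0, 3, 6, 6, 9, 3, 7, 15, 12, 18, 21, 3, 0], [3, 6, 6, 0, 6, 6, 2, 6, 6, 6, 6, 12, 12],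
    [6, 6, 0, 12, 6, 6, 6, 18, 12, 24, 30, 6, 0], [6, 0, 12, 0, 12, 0, 8, 12, 12, 12, 12, 0, 0],
    [9, 6, 6, 12, 0, 6, 8, 12, 6, 18, 24, 6, 0], [3, 6, 6, 0, 6, 0, 2, 6, 6, 6, 6, 12, 12], [7, 2,
    6, 8, 8, 2, 0, 12, 10, 14, 16, 2, 0], [15, 6, 18, 12, 12, 6, 12, 0, 6, 6, 12, 6, 0], [12, 6,
    12, 12, 6, 6, 10, 6, 0, 12, 18, 6, 0], [18, 6, 24, 12, 18, 6, 14, 6, 12, 0, 6, 6, 0], [21, 6,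
    30, 12, 24, 6, 16, 12, 18, 6, 0, 6, 0], [3, 12, 6, 0, 6, 12, 2, 6, 6, 6, 6, 12, 12], [0, 12,
    0, 0, 0, 12, 0, 0, 0, 0, 0, 12, 0]]
  D := 12
  p := [36, 35, -26, -58, -79, -101, -121, -60, -72, -27, 13, -7]
  cu := [(⟨[0, 1, 0, 0, 0, 1, 0, 0, 0, 0, 0, 1, 0], 1, [1, 0, 0, 0, 0, 0, 0, 0, 0, 0, 0, 0], [1,
    0, 0, 0, 0, 0, 0, 0, 0, 0, 0, 0]⟩, .same), (⟨[4, 0, 6, 2, 5, 0, 3, 3, 4, 2, 1, 0, 0], 1, [1,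
    0, 0, 0, 0, 0, 0, 0, 0, 0, 0, 0], [1, 0, 0, 0, 0, 0, 0, 0, 0, 0, 0, 0]⟩, .same), (⟨[1, 1, 2,
    0, 2, 0, 1, 2, 2, 2, 2, 2, 2], 1, [2, 2, -1, -3, -4, -5, -6, -3, -3, -1, 1, -1], [0, 0, 0, 0,
    0, 0, 0, 0, 0, 0, 0, -1]⟩, .ty ⟨[[0, 0, 0, 0, 1, 0, 0, 0, 0, 0, 0, 0], [0, 0, 0, 0, -1, -1, 0,
    0, 0, 0, 0, 0], [0, 0, 0, 0, 1, 2, 2, 1, 1, 1, 0, 0], [0, 0, -1, -1, -1, -1, -2, -1, -1, -1,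
    0, 0], [0, 0, 0, -1, -2, -3, -4, -2, -3, -2, 0, 0], [0, 0, 0, 1, 1, 1, 1, 0, 1, 1, 0, 0], [0,
    0, 0, 0, 0, 0, 0, 1, 0, 0, 0, 0], [-1, 0, 1, 2, 3, 4, 5, 2, 3, 1, 0, 0], [1, -1, 0, 0, 0, 0,
    0, 0, 0, 0, 0, 0]], [0, 0, 0, 0, 0, 0, 0, 0, 0], [[9, 14, 12, 7, 10, 8, 6, 4, 2], [14, 28, 24,
    14, 20, 16, 12, 8, 4], [12, 24, 24, 12, 20, 16, 12, 8, 4], [7, 14, 12, 9, 10, 8, 6, 4, 2],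
    [10, 20, 20, 10, 20, 16, 12, 8, 4], [8, 16, 16, 8, 16, 16, 12, 8, 4], [6, 12, 12, 6, 12, 12,
    12, 8, 4], [4, 8, 8, 4, 8, 8, 8, 8, 4], [2, 4, 4, 2, 4, 4, 4, 4, 4]], 4⟩ 1 3)]
  κ := [0, 0, 0, 0, 0, 0, 0, 0, 0, 0, 1, 2]
  q := 10
  R := [0, 0, 58, 114, 168, 220, 270, 136, 182, 92, 1, 1]
  wd := [[], [[0, 0, 0, 0, 0, 0, 0, 0, 0, 0, 1, -1]]]

theorem dat4_ok : datB (blk hyp (gr [(.E 8, 1), (.A 1, 1), (.A 1, 1)])) dat4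
    (ok1 (blk hyp (gr [(.E 8, 1), (.A 1, 1), (.A 1, 1)])) dat4) = true := by
  decide +kernel

end Pool.Agent.CN3
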