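import Pool.Agent.Helper25_CN3.Defs

/-!
Squad CN3: the data of the lattice number 5
-/

namespace Pool.Agent.CN3

open Pool.Agent.CN2

/-- the data -/
def dat5 : Dat where
  A := [[0, 0, 0, 0, 1, 0, 0, 0, 0, 0, 0, 0], [0, 0, 0, 0, -1, -1, 0, 0, 0, 0, 0, 0], [0, 0, 1, 1,
    1, 2, 2, 1, 2, 1, 0, 0], [0, 0, 0, 0, 1, 2, 2, 1, 1, 1, 0, 0], [0, 0, 0, 0, 0, 0, 0, 0, 0, 0,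
    0, -1], [0, 0, -1, -1, -1, -1, -2, -1, -1, -1, 0, 0], [0, 0, 0, 0, 0, 0, 0, 0, 0, 0, 1, 0],
    [0, 0, 0, 1, 1, 1, 1, 0, 1, 1, 0, 0], [0, 0, 0, -1, -2, -3, -4, -2, -3, -2, 0, 0], [0, 0, 0,
    0, 0, 0, 0, 1, 0, 0, 0, 0], [-1, 0, 1, 2, 3, 4, 5, 2, 3, 1, 0, 0], [-2, 0, 0, 0, 0, 0, 0, 0,
    0, 0, 0, 1], [-1, 0, 0, 0, 0, 0, 0, 0, 0, 0, -1, 0], [1, -1, 0, 0, 0, 0, 0, 0, 0, 0, 0, 0],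
    [-2, -2, 1, 3, 4, 5, 6, 3, 3, 1, -1, 1]]
  c := [[0, 196, 206, 294, 13, 218, 40, 490, 392, 336, 392, 0, 0, 16, 160], [196, 0, 420, 192, 24,
    192, 48, 576, 384, 432, 540, 0, 0, 0, 252], [206, 420, 0, 420, 0, 258, 30, 420, 420, 252, 252,
    0, 0, 36, 66], [294, 192, 420, 0, 24, 264, 24, 384, 192, 324, 432, 9, 0, 0, 210], [13, 24, 0,
    24, 0, 0, 0, 12, 24, 0, 9, 33, 0, 72, 15], [218, 192, 258, 264, 0, 0, 0, 408, 336, 312, 342,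
    12, 0, 48, 102], [40, 48, 30, 24, 0, 0, 0, 0, 0, 0, 0, 0, 48, 0, 48], [490, 576, 420, 384, 12,
    408, 0, 0, 192, 108, 216, 15, 24, 0, 126], [392, 384, 420, 192, 24, 336, 0, 192, 0, 216, 324,
    18, 0, 0, 168], [336, 432, 252, 324, 0, 312, 0, 108, 216, 0, 192, 96, 132, 168, 0], [392, 540,
    252, 432, 9, 342, 0, 216, 324, 192, 0, 72, 114, 84, 0], [0, 0, 0, 9, 33, 12, 0, 15, 18, 96,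
    72, 0, 63, 102, 0], [0, 0, 0, 0, 0, 0, 48, 24, 0, 132, 114, 63, 0, 96, 0], [16, 0, 36, 0, 72,
    48, 0, 0, 0, 168, 84, 102, 96, 0, 0], [160, 252, 66, 210, 15, 102, 48, 126, 168, 0, 0, 0, 0,
    0, 0]]
  D := 384
  p := [33, 31, -22, -49, -67, -86, -103, -51, -61, -23, 11, -11]
  cu := [(⟨[0, 0, 0, 0, 1, 0, 0, 0, 0, 0, 0, 1, 0, 0, 0], 2, [1, 0, 0, 0, 0, 0, 0, 0, 0, 0, 0, 0],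
    [1, 0, 0, 0, 0, 0, 0, 0, 0, 0, 0, 0]⟩, .same), (⟨[0, 0, 0, 0, 0, 0, 1, 0, 0, 0, 0, 0, 1, 0,
    0], 1, [1, 0, 0, 0, 0, 0, 0, 0, 0, 0, 0, 0], [1, 0, 0, 0, 0, 0, 0, 0, 0, 0, 0, 0]⟩, .same),
    (⟨[0, 0, 0, 0, 0, 0, 1, 0, 0, 0, 0, 0, 0, 0, 1], 1, [2, 2, -1, -3, -4, -5, -6, -3, -3, -1, 0,
    -1], [0, 0, 0, 0, 0, 0, 0, 0, 0, 0, 0, -1]⟩, .ty ⟨[[0, 0, 0, 0, 1, 0, 0, 0, 0, 0, 0, 0], [0,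
    0, 0, 0, -1, -1, 0, 0, 0, 0, 0, 0], [0, 0, 0, 0, 1, 2, 2, 1, 1, 1, 0, 0], [0, 0, -1, -1, -1,
    -1, -2, -1, -1, -1, 0, 0], [0, 0, 0, -1, -2, -3, -4, -2, -3, -2, 0, 0], [0, 0, 0, 1, 1, 1, 1,
    0, 1, 1, 0, 0], [0, 0, 0, 0, 0, 0, 0, 1, 0, 0, 0, 0], [-1, 0, 1, 2, 3, 4, 5, 2, 3, 1, 0, 0],
    [1, -1, 0, 0, 0, 0, 0, 0, 0, 0, 0, 0]], [0, 0, 0, 0, 0, 0, 0, 0, 0], [[9, 14, 12, 7, 10, 8, 6,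
    4, 2], [14, 28, 24, 14, 20, 16, 12, 8, 4], [12, 24, 24, 12, 20, 16, 12, 8, 4], [7, 14, 12, 9,
    10, 8, 6, 4, 2], [10, 20, 20, 10, 20, 16, 12, 8, 4], [8, 16, 16, 8, 16, 16, 12, 8, 4], [6, 12,
    12, 6, 12, 12, 12, 8, 4], [4, 8, 8, 4, 8, 8, 8, 8, 4], [2, 4, 4, 2, 4, 4, 4, 4, 4]], 4⟩ 1 3),
    (⟨[0, 0, 0, 0, 0, 0, 0, 0, 0, 0, 1, 1, 1, 2, 0], 1, [2, 2, -1, -2, -3, -4, -5, -2, -3, -1, 1,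
    -1], [0, 0, 0, 0, 0, 0, 0, 0, 0, 0, 0, -1]⟩, .ty ⟨[[0, 0, 0, 0, 1, 0, 0, 0, 0, 0, 0, 0], [0,
    0, 0, 0, -1, -1, 0, 0, 0, 0, 0, 0], [0, 0, 1, 1, 1, 2, 2, 1, 2, 1, 0, 0], [0, 0, 0, 0, 1, 2,
    2, 1, 1, 1, 0, 0], [0, 0, 0, -1, -2, -3, -4, -2, -3, -2, 0, 0], [0, 0, 0, 1, 1, 1, 1, 0, 1, 1,
    0, 0], [-1, 0, 1, 2, 3, 4, 5, 2, 3, 1, 0, 0], [1, -1, 0, 0, 0, 0, 0, 0, 0, 0, 0, 0], [-1, 0,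
    0, 0, 0, 0, 0, 0, 0, 0, -1, 0]], [0, 0, 0, 0, 0, 0, 1, 1, 1], [[40, 32, 20, 24, 16, 8, 0, 0,
    0], [32, 48, 16, 36, 24, 12, 0, 0, 0], [20, 16, 24, 12, 8, 4, 0, 0, 0], [24, 36, 12, 48, 32,
    16, 0, 0, 0], [16, 24, 8, 32, 40, 20, 0, 0, 0], [8, 12, 4, 16, 20, 24, 0, 0, 0], [0, 0, 0, 0,
    0, 0, 21, 14, 7], [0, 0, 0, 0, 0, 0, 14, 28, 14], [0, 0, 0, 0, 0, 0, 7, 14, 21]], 28⟩ 2 3),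
    (⟨[3, 4, 2, 3, 0, 2, 0, 1, 2, 0, 0, 0, 0, 0, 1], 1, [2, 2, -1, -2, -3, -4, -5, -2, -3, -1, 1,
    -1], [0, 0, 0, 0, 0, 0, 0, 0, 0, 0, 0, -1]⟩, .ty ⟨[[0, 0, 0, 0, 1, 0, 0, 0, 0, 0, 0, 0], [0,
    0, 0, 0, -1, -1, 0, 0, 0, 0, 0, 0], [0, 0, 1, 1, 1, 2, 2, 1, 2, 1, 0, 0], [0, 0, 0, 0, 1, 2,
    2, 1, 1, 1, 0, 0], [0, 0, 0, -1, -2, -3, -4, -2, -3, -2, 0, 0], [0, 0, 0, 1, 1, 1, 1, 0, 1, 1,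
    0, 0], [-1, 0, 1, 2, 3, 4, 5, 2, 3, 1, 0, 0], [1, -1, 0, 0, 0, 0, 0, 0, 0, 0, 0, 0], [-1, 0,
    0, 0, 0, 0, 0, 0, 0, 0, -1, 0]], [0, 0, 0, 0, 0, 0, 1, 1, 1], [[40, 32, 20, 24, 16, 8, 0, 0,
    0], [32, 48, 16, 36, 24, 12, 0, 0, 0], [20, 16, 24, 12, 8, 4, 0, 0, 0], [24, 36, 12, 48, 32,
    16, 0, 0, 0], [16, 24, 8, 32, 40, 20, 0, 0, 0], [8, 12, 4, 16, 20, 24, 0, 0, 0], [0, 0, 0, 0,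
    0, 0, 21, 14, 7], [0, 0, 0, 0, 0, 0, 14, 28, 14], [0, 0, 0, 0, 0, 0, 7, 14, 21]], 28⟩ 2 3),
    (⟨[4, 6, 2, 5, 0, 3, 0, 3, 4, 2, 1, 0, 0, 0, 0], 1, [1, 0, 0, 0, 0, 0, 0, 0, 0, 0, 0, 0], [1,
    0, 0, 0, 0, 0, 0, 0, 0, 0, 0, 0]⟩, .same), (⟨[1, 2, 0, 2, 0, 1, 0, 2, 2, 2, 2, 1, 0, 2, 0], 1,
    [2, 2, -1, -3, -4, -5, -6, -3, -3, -1, 0, -1], [0, 0, 0, 0, 0, 0, 0, 0, 0, 0, 0, -1]⟩,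
    .ty ⟨[[0, 0, 0, 0, 1, 0, 0, 0, 0, 0, 0, 0], [0, 0, 0, 0, -1, -1, 0, 0, 0, 0, 0, 0], [0, 0, 0,
    0, 1, 2, 2, 1, 1, 1, 0, 0], [0, 0, -1, -1, -1, -1, -2, -1, -1, -1, 0, 0], [0, 0, 0, -1, -2,
    -3, -4, -2, -3, -2, 0, 0], [0, 0, 0, 1, 1, 1, 1, 0, 1, 1, 0, 0], [0, 0, 0, 0, 0, 0, 0, 1, 0,
    0, 0, 0], [-1, 0, 1, 2, 3, 4, 5, 2, 3, 1, 0, 0], [1, -1, 0, 0, 0, 0, 0, 0, 0, 0, 0, 0]], [0,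
    0, 0, 0, 0, 0, 0, 0, 0], [[9, 14, 12, 7, 10, 8, 6, 4, 2], [14, 28, 24, 14, 20, 16, 12, 8, 4],
    [12, 24, 24, 12, 20, 16, 12, 8, 4], [7, 14, 12, 9, 10, 8, 6, 4, 2], [10, 20, 20, 10, 20, 16,
    12, 8, 4], [8, 16, 16, 8, 16, 16, 12, 8, 4], [6, 12, 12, 6, 12, 12, 12, 8, 4], [4, 8, 8, 4, 8,
    8, 8, 8, 4], [2, 4, 4, 2, 4, 4, 4, 4, 4]], 4⟩ 1 3)]
  κ := [0, 0, 0, 0, 0, 0, 0, 0, 0, 0, 1, 2]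
  q := 9
  R := [0, 0, 58, 114, 168, 220, 270, 136, 182, 92, 1, 0]
  wd := [[]]

theorem dat5_ok : datB (blk hyp (gr [(.E 8, 1), (.A 1, 1), (.A 1, 2)])) dat5
    (ok1 (blk hyp (gr [(.E 8, 1), (.A 1, 1), (.A 1, 2)])) dat5) = true := by
  decide +kernel

end Pool.Agent.CN3
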