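import Pool.Agent.Helper25_CN3.Defs

/-!
Squad CN3: the data of the lattice number 6
-/

namespace Pool.Agent.CN3

open Pool.Agent.CN2

/-- the data -/
def dat6 : Dat where
  A := [[0, 0, 0, 0, 1, 0, 0, 0, 0, 0, 0, 0], [0, 0, 0, 0, 0, 0, 0, 0, 0, 0, 1, 1], [0, 0, 0, 0,
    -1, -1, 0, 0, 0, 0, 0, 0], [0, 0, 1, 1, 1, 1, 0, 1, 0, 0, 0, 0], [0, 0, 0, 0, 0, 0, 0, 0, 1,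
    0, -1, 0], [0, 0, 0, 0, 0, 0, 0, 0, 0, 0, 0, -1], [0, 0, -1, -1, -1, 0, 0, 0, 0, 0, 0, 0], [0,
    0, 0, -1, -1, -1, 0, -1, 0, 0, 0, 0], [0, 0, 0, 0, 0, 0, -1, -1, 0, 0, 0, 0], [0, 0, 0, 0, 0,
    0, 0, 0, 0, 1, 0, 1], [-1, 0, 0, 1, 1, 1, 1, 0, 0, 0, 0, 0], [-1, 0, 0, 0, 0, 0, 0, 0, -1, -2,
    -1, -1], [1, -1, 0, 0, 0, 0, 0, 0, 0, 0, 0, 0], [-2, -2, 1, 2, 3, 4, 3, 2, -2, -2, -1, -1]]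
  c := [[0, 0, 2, 4, 0, 0, 2, 2, 2, 0, 4, 0, 4, 2], [0, 0, 0, 0, 1, 1, 0, 1, 0, 2, 0, 3, 0, 0],
    [2, 0, 0, 6, 0, 0, 4, 2, 1, 0, 5, 0, 4, 2], [4, 0, 6, 0, 0, 0, 2, 2, 4, 0, 2, 0, 4, 2], [0, 1,
    0, 0, 0, 2, 0, 0, 0, 2, 0, 2, 0, 0], [0, 1, 0, 0, 2, 0, 0, 2, 0, 2, 0, 4, 0, 0], [2, 0, 4, 2,
    0, 0, 0, 2, 3, 0, 3, 0, 4, 2], [2, 1, 2, 2, 0, 2, 2, 0, 1, 2, 3, 2, 4, 0], [2, 0, 1, 4, 0, 0,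
    3, 1, 0, 0, 3, 0, 2, 1], [0, 2, 0, 0, 2, 2, 0, 2, 0, 0, 0, 2, 0, 0], [4, 0, 5, 2, 0, 0, 3, 3,
    3, 0, 0, 0, 2, 1], [0, 3, 0, 0, 2, 4, 0, 2, 0, 2, 0, 0, 0, 0], [4, 0, 4, 4, 0, 0, 4, 4, 2, 0,
    2, 0, 0, 0], [2, 0, 2, 2, 0, 0, 2, 0, 1, 0, 1, 0, 0, 0]]
  D := 4
  p := [21, 20, -8, -18, -24, -31, -22, -13, 14, 19, 12, 8]
  cu := [(⟨[0, 0, 1, 0, 0, 0, 0, 0, 1, 0, 0, 0, 0, 1], 1, [2, 2, -1, -2, -2, -3, -2, -1, 2, 2, 1,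
    1], [0, 0, 0, 0, 0, 0, 0, 0, 0, 0, 0, 1]⟩, .ty ⟨[[0, 0, 1, 1, 1, 1, 0, 1, 0, 0, 0, 0], [0, 0,
    -1, -1, -1, 0, 0, 0, 0, 0, 0, 0], [0, 0, 0, -1, -1, -1, 0, -1, 0, 0, 0, 0], [-1, 0, 0, 1, 1,
    1, 1, 0, 0, 0, 0, 0], [1, -1, 0, 0, 0, 0, 0, 0, 0, 0, 0, 0], [-1, 0, 0, 0, 0, 0, 0, 0, -1, -2,
    -1, -1], [0, 0, 0, 0, 0, 0, 0, 0, 0, 1, 0, 1]], [0, 0, 0, 0, 0, 0, 0], [[20, 10, 10, 16, 12,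
    8, 4], [10, 7, 5, 8, 6, 4, 2], [10, 5, 7, 8, 6, 4, 2], [16, 8, 8, 16, 12, 8, 4], [12, 6, 6,
    12, 12, 8, 4], [8, 4, 4, 8, 8, 8, 4], [4, 2, 2, 4, 4, 4, 4]], 4⟩ 1 2), (⟨[0, 0, 0, 0, 1, 0, 0,
    0, 1, 0, 0, 0, 0, 2], 1, [4, 4, -2, -4, -6, -8, -5, -3, 3, 4, 3, 2], [0, 0, -2, 2, 0, 0, -1,
    0, 0, 0, 0, 0]⟩, .dv), (⟨[0, 1, 0, 0, 1, 1, 0, 0, 0, 0, 0, 0, 0, 1], 1, [2, 2, -1, -2, -3, -4,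
    -3, -2, 1, 2, 1, 1], [0, 0, 0, 0, 0, 0, 0, 0, 0, 0, 0, 1]⟩, .ty ⟨[[0, 0, 0, 0, 1, 0, 0, 0, 0,
    0, 0, 0], [0, 0, -1, -1, -1, 0, 0, 0, 0, 0, 0, 0], [0, 0, 1, 1, 1, 1, 0, 1, 0, 0, 0, 0], [0,
    0, 0, -1, -1, -1, 0, -1, 0, 0, 0, 0], [-1, 0, 0, 1, 1, 1, 1, 0, 0, 0, 0, 0], [1, -1, 0, 0, 0,
    0, 0, 0, 0, 0, 0, 0], [-1, 0, 0, 0, 0, 0, 0, 0, -1, -2, -1, -1]], [0, 0, 0, 0, 0, 0, 0], [[4,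
    6, 8, 4, 6, 4, 2], [6, 12, 16, 8, 12, 8, 4], [8, 16, 24, 12, 18, 12, 6], [4, 8, 12, 7, 9, 6,
    3], [6, 12, 18, 9, 15, 10, 5], [4, 8, 12, 6, 10, 8, 4], [2, 4, 6, 3, 5, 4, 3]], 2⟩ 1 2), (⟨[0,
    2, 0, 0, 1, 3, 0, 0, 0, 2, 0, 1, 0, 0], 1, [1, 0, 0, 0, 0, 0, 0, 0, 0, 0, 0, 0], [1, 0, 0, 0,
    0, 0, 0, 0, 0, 0, 0, 0]⟩, .same), (⟨[2, 0, 2, 2, 0, 0, 2, 1, 1, 0, 1, 0, 0, 0], 1, [1, 0, 0,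
    0, 0, 0, 0, 0, 0, 0, 0, 0], [1, 0, 0, 0, 0, 0, 0, 0, 0, 0, 0, 0]⟩, .same), (⟨[2, 0, 1, 4, 0,
    0, 3, 2, 0, 0, 3, 1, 2, 0], 1, [2, 2, -1, -2, -3, -4, -3, -2, 1, 2, 1, 1], [0, 0, 0, 0, 0, 0,
    0, 0, 0, 0, 0, 1]⟩, .ty ⟨[[0, 0, 0, 0, 1, 0, 0, 0, 0, 0, 0, 0], [0, 0, -1, -1, -1, 0, 0, 0, 0,
    0, 0, 0], [0, 0, 1, 1, 1, 1, 0, 1, 0, 0, 0, 0], [0, 0, 0, -1, -1, -1, 0, -1, 0, 0, 0, 0], [-1,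
    0, 0, 1, 1, 1, 1, 0, 0, 0, 0, 0], [1, -1, 0, 0, 0, 0, 0, 0, 0, 0, 0, 0], [-1, 0, 0, 0, 0, 0,
    0, 0, -1, -2, -1, -1]], [0, 0, 0, 0, 0, 0, 0], [[4, 6, 8, 4, 6, 4, 2], [6, 12, 16, 8, 12, 8,
    4], [8, 16, 24, 12, 18, 12, 6], [4, 8, 12, 7, 9, 6, 3], [6, 12, 18, 9, 15, 10, 5], [4, 8, 12,
    6, 10, 8, 4], [2, 4, 6, 3, 5, 4, 3]], 2⟩ 1 2), (⟨[0, 1, 0, 2, 0, 2, 1, 1, 0, 2, 2, 2, 2, 0],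
    1, [2, 2, -1, -2, -2, -3, -2, -1, 2, 2, 1, 1], [0, 0, 0, 0, 0, 0, 0, 0, 0, 0, 0, 1]⟩,
    .ty ⟨[[0, 0, 1, 1, 1, 1, 0, 1, 0, 0, 0, 0], [0, 0, -1, -1, -1, 0, 0, 0, 0, 0, 0, 0], [0, 0, 0,
    -1, -1, -1, 0, -1, 0, 0, 0, 0], [-1, 0, 0, 1, 1, 1, 1, 0, 0, 0, 0, 0], [1, -1, 0, 0, 0, 0, 0,
    0, 0, 0, 0, 0], [-1, 0, 0, 0, 0, 0, 0, 0, -1, -2, -1, -1], [0, 0, 0, 0, 0, 0, 0, 0, 0, 1, 0,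
    1]], [0, 0, 0, 0, 0, 0, 0], [[20, 10, 10, 16, 12, 8, 4], [10, 7, 5, 8, 6, 4, 2], [10, 5, 7, 8,
    6, 4, 2], [16, 8, 8, 16, 12, 8, 4], [12, 6, 6, 12, 12, 8, 4], [8, 4, 4, 8, 8, 8, 4], [4, 2, 2,
    4, 4, 4, 4]], 4⟩ 1 2), (⟨[2, 0, 0, 6, 0, 1, 4, 3, 0, 2, 5, 3, 4, 0], 1, [4, 4, -2, -4, -6, -8,
    -5, -3, 3, 4, 3, 2], [0, 0, -2, 2, 0, 0, -1, 0, 0, 0, 0, 0]⟩, .dv), (⟨[2, 1, 2, 2, 0, 2, 2, 0,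
    1, 2, 2, 2, 2, 0], 1, [2, 2, 0, -2, -2, -2, -1, -1, 2, 2, 1, 1], [0, 0, 0, 0, 0, 0, 0, 0, 0,
    0, 0, 1]⟩, .dv)]
  κ := [0, 0, 0, 0, 0, 0, 0, 0, 1, 1, 1, 1]
  q := 10
  R := [0, 0, 10, 18, 24, 28, 15, 15, 6, 10, 6, 6]
  wd := [[], [[0, 0, 0, 0, 0, 0, 0, 0, 0, 0, 1, -1]], [[0, 0, 0, 0, 0, 0, 0, 0, 1, 0, -1, 0]],
    [[0, 0, 0, 0, 0, 0, 0, 0, 1, 0, 0, -1], [0, 0, 0, 0, 0, 0, 0, 0, 1, 0, -1, 0]], [[0, 0, 0, 0,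
    0, 0, 0, 0, 0, 0, 1, -1], [0, 0, 0, 0, 0, 0, 0, 0, 1, 0, -1, 0]], [[0, 0, 0, 0, 0, 0, 0, 0, 1,
    0, 0, -1]], [[0, 0, 0, 0, 0, 0, 1, -1, 0, 0, 0, 0]], [[0, 0, 0, 0, 0, 0, 0, 0, 0, 0, 1, -1],
    [0, 0, 0, 0, 0, 0, 1, -1, 0, 0, 0, 0]], [[0, 0, 0, 0, 0, 0, 0, 0, 1, 0, -1, 0], [0, 0, 0, 0,
    0, 0, 1, -1, 0, 0, 0, 0]], [[0, 0, 0, 0, 0, 0, 0, 0, 1, 0, 0, -1], [0, 0, 0, 0, 0, 0, 0, 0, 1,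
    0, -1, 0], [0, 0, 0, 0, 0, 0, 1, -1, 0, 0, 0, 0]], [[0, 0, 0, 0, 0, 0, 0, 0, 0, 0, 1, -1], [0,
    0, 0, 0, 0, 0, 0, 0, 1, 0, -1, 0], [0, 0, 0, 0, 0, 0, 1, -1, 0, 0, 0, 0]], [[0, 0, 0, 0, 0, 0,
    0, 0, 1, 0, 0, -1], [0, 0, 0, 0, 0, 0, 1, -1, 0, 0, 0, 0]]]

theorem dat6_ok : datB (blk hyp (gr [(.D 6, 1), (.D 4, 1)])) dat6
    (ok1 (blk hyp (gr [(.D 6, 1), (.D 4, 1)])) dat6) = true := by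
  decide +kernel

end Pool.Agent.CN3
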