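import Pool.Agent.Helper25_CN3.Defs

/-!
Squad CN3: the data of the lattice number 7
-/

namespace Pool.Agent.CN3

open Pool.Agent.CN2

/-- the data -/
def dat7 : Dat where
  A := [[0, 0, 0, 0, 0, 0, 0, 1, 0, 0, 0], [0, 0, 0, -1, -2, -2, -2, -1, -1, -1, 0], [0, 0, 0, 0,
    1, 1, 1, 0, 1, 0, 0], [0, 0, 0, 0, 0, 0, 0, 0, -1, 0, 0], [0, 0, 0, 0, 0, 0, 1, 0, 1, 1, 0],
    [0, 0, 0, 1, 0, 0, 0, 0, 0, 0, 0], [0, 0, 1, 1, 1, 0, 0, 0, 0, 0, 0], [0, 0, 0, 0, 0, 1, 0, 0,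
    0, 0, 0], [0, 0, 0, 0, 0, 0, 0, 0, 0, 0, 1], [-1, 0, -2, -3, -4, -5, -6, -3, -4, -2, 0], [-1,
    0, 0, 0, 0, 0, 0, 0, 0, 0, -1], [1, -1, 0, 0, 0, 0, 0, 0, 0, 0, 0]]
  c := [[0, 12, 6, 9, 6, 8, 18, 12, 6, 24, 6, 0], [12, 0, 12, 6, 12, 8, 12, 12, 0, 12, 0, 0], [6,
    12, 0, 6, 12, 6, 24, 18, 6, 30, 6, 0], [9, 6, 6, 0, 12, 7, 18, 15, 3, 21, 3, 0], [6, 12, 12,
    12, 0, 10, 12, 6, 6, 18, 6, 0], [8, 8, 6, 7, 10, 0, 14, 12, 2, 16, 2, 0], [18, 12, 24, 18, 12,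
    14, 0, 6, 6, 6, 6, 0], [12, 12, 18, 15, 6, 12, 6, 0, 6, 12, 6, 0], [6, 0, 6, 3, 6, 2, 6, 6, 6,
    6, 12, 12], [24, 12, 30, 21, 18, 16, 6, 12, 6, 0, 6, 0], [6, 0, 6, 3, 6, 2, 6, 6, 12, 6, 12,
    12], [0, 0, 0, 0, 0, 0, 0, 0, 12, 0, 12, 0]]
  D := 12
  p := [31, 30, 29, 51, 72, 100, 127, 64, 82, 38, 9]
  cu := [(⟨[0, 0, 0, 0, 0, 0, 0, 0, 1, 0, 1, 0], 1, [1, 0, 0, 0, 0, 0, 0, 0, 0, 0, 0], [1, 0, 0,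
    0, 0, 0, 0, 0, 0, 0, 0]⟩, .same), (⟨[5, 2, 6, 4, 4, 3, 2, 3, 0, 1, 0, 0], 1, [1, 0, 0, 0, 0,
    0, 0, 0, 0, 0, 0], [1, 0, 0, 0, 0, 0, 0, 0, 0, 0, 0]⟩, .same)]
  κ := [0, 0, 0, 0, 0, 0, 0, 0, 0, 0, 1]
  q := 9
  R := [0, 0, 58, 114, 168, 220, 270, 136, 182, 92, 1]
  wd := [[]]

theorem dat7_ok : datB (blk hyp (gr [(.E 8, 1), (.A 1, 1)])) dat7
    (ok1 (blk hyp (gr [(.E 8, 1), (.A 1, 1)])) dat7) = true := by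
  decide +kernel

end Pool.Agent.CN3
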