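import Pool.Agent.Helper25_CN3.Defs

/-!
Squad CN3: the data of the lattice number 8
-/

namespace Pool.Agent.CN3

open Pool.Agent.CN2

/-- the data -/
def dat8 : Dat where
  A := [[0, 0, 0, 0, 0, 0, 0, 1, 0, 0, 0], [0, 0, 0, -1, -2, -2, -2, -1, -1, -1, 0], [0, 0, 0, 0,
    1, 1, 1, 0, 1, 0, 0], [0, 0, 0, 0, 0, 0, 0, 0, -1, 0, 0], [0, 0, 0, 0, 0, 0, 1, 0, 1, 1, 0],
    [0, 0, 0, 1, 0, 0, 0, 0, 0, 0, 0], [0, 0, 1, 1, 1, 0, 0, 0, 0, 0, 0], [0, 0, 0, 0, 0, 1, 0, 0,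
    0, 0, 0], [0, 0, 0, 0, 0, 0, 0, 0, 0, 0, 1], [-1, 0, -2, -3, -4, -5, -6, -3, -4, -2, 0], [-2,
    0, 0, 0, 0, 0, 0, 0, 0, 0, -1], [1, -1, 0, 0, 0, 0, 0, 0, 0, 0, 0]]
  c := [[0, 24, 12, 18, 12, 16, 36, 24, 6, 48, 6, 0], [24, 0, 24, 12, 24, 16, 24, 24, 0, 24, 0,
    0], [12, 24, 0, 12, 24, 12, 48, 36, 6, 60, 6, 0], [18, 12, 12, 0, 24, 14, 36, 30, 3, 42, 3,
    0], [12, 24, 24, 24, 0, 20, 24, 12, 6, 36, 6, 0], [16, 16, 12, 14, 20, 0, 28, 24, 2, 32, 2,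
    0], [36, 24, 48, 36, 24, 28, 0, 12, 6, 12, 6, 0], [24, 24, 36, 30, 12, 24, 12, 0, 6, 24, 6,
    0], [6, 0, 6, 3, 6, 2, 6, 6, 0, 6, 6, 12], [48, 24, 60, 42, 36, 32, 12, 24, 6, 0, 6, 0], [6,
    0, 6, 3, 6, 2, 6, 6, 6, 6, 6, 12], [0, 0, 0, 0, 0, 0, 0, 0, 12, 0, 12, 0]]
  D := 24
  p := [31, 30, 29, 51, 72, 100, 127, 64, 82, 38, 9]
  cu := [(⟨[0, 0, 0, 0, 0, 0, 0, 0, 1, 0, 1, 0], 2, [1, 0, 0, 0, 0, 0, 0, 0, 0, 0, 0], [1, 0, 0,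
    0, 0, 0, 0, 0, 0, 0, 0]⟩, .same), (⟨[5, 2, 6, 4, 4, 3, 2, 3, 0, 1, 0, 0], 1, [1, 0, 0, 0, 0,
    0, 0, 0, 0, 0, 0], [1, 0, 0, 0, 0, 0, 0, 0, 0, 0, 0]⟩, .same), (⟨[2, 0, 2, 1, 2, 1, 2, 2, 0,
    2, 1, 2], 1, [2, 2, 2, 3, 4, 6, 8, 4, 5, 2, 1], [0, 0, 0, 0, 0, 0, 0, 0, 0, 0, 1]⟩, .ty ⟨[[0,
    0, 0, 0, 0, 0, 0, 1, 0, 0, 0], [0, 0, 0, 0, 1, 1, 1, 0, 1, 0, 0], [0, 0, 0, 0, 0, 0, 0, 0, -1,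
    0, 0], [0, 0, 0, 0, 0, 0, 1, 0, 1, 1, 0], [0, 0, 0, 1, 0, 0, 0, 0, 0, 0, 0], [0, 0, 0, 0, 0,
    1, 0, 0, 0, 0, 0], [0, 0, 1, 1, 1, 0, 0, 0, 0, 0, 0], [-1, 0, -2, -3, -4, -5, -6, -3, -4, -2,
    0], [1, -1, 0, 0, 0, 0, 0, 0, 0, 0, 0]], [0, 0, 0, 0, 0, 0, 0, 0, 0], [[24, 24, 12, 20, 12,
    16, 12, 8, 4], [24, 28, 14, 20, 14, 16, 12, 8, 4], [12, 14, 9, 10, 7, 8, 6, 4, 2], [20, 20,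
    10, 20, 10, 16, 12, 8, 4], [12, 14, 7, 10, 9, 8, 6, 4, 2], [16, 16, 8, 16, 8, 16, 12, 8, 4],
    [12, 12, 6, 12, 6, 12, 12, 8, 4], [8, 8, 4, 8, 4, 8, 8, 8, 4], [4, 4, 2, 4, 2, 4, 4, 4, 4]],
    4⟩ 1 2)]
  κ := [0, 0, 0, 0, 0, 0, 0, 0, 0, 0, 1]
  q := 8
  R := [0, 0, 58, 114, 168, 220, 270, 136, 182, 92, 0]
  wd := [[]]

theorem dat8_ok : datB (blk hyp (gr [(.E 8, 1), (.A 1, 2)])) dat8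
    (ok1 (blk hyp (gr [(.E 8, 1), (.A 1, 2)])) dat8) = true := by
  decide +kernel

end Pool.Agent.CN3
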