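import Pool.Agent.Helper25_CN3.Defs

/-!
Squad CN3: the data of the lattice number 9
-/

namespace Pool.Agent.CN3

open Pool.Agent.CN2

/-- the data -/
def dat9 : Dat where
  A := [[0, 0, 0, 0, 0, 0, 0, 1, 0, 0, 0], [0, 0, 0, -1, -2, -2, -2, -1, -1, -1, 0], [0, 0, 0, 0,
    1, 1, 1, 0, 1, 0, 0], [0, 0, 0, 0, 0, 0, 0, 0, -1, 0, 0], [0, 0, 0, 0, 0, 0, 1, 0, 1, 1, 0],
    [0, 0, 0, 1, 0, 0, 0, 0, 0, 0, 0], [0, 0, 1, 1, 1, 0, 0, 0, 0, 0, 0], [0, 0, 0, 0, 0, 1, 0, 0,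
    0, 0, 0], [0, 0, 0, 0, 0, 0, 0, 0, 0, 0, 1], [-1, 0, -2, -3, -4, -5, -6, -3, -4, -2, 0], [-3,
    0, 0, 0, 0, 0, 0, 0, 0, 0, -1], [1, -1, 0, 0, 0, 0, 0, 0, 0, 0, 0], [-2, -2, -2, -3, -4, -6,
    -8, -4, -5, -2, -1]]
  c := [[15120, 8064, 11592, 9828, 8568, 7926, 3780, 9576, 135, 2520, 0, 0, 5670], [8064, 0, 5040,
    2520, 5040, 3300, 504, 5040, 426, 504, 168, 0, 2268], [11592, 5040, 0, 2520, 5040, 2520, 1008,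
    7560, 852, 1260, 588, 0, 6804], [9828, 2520, 2520, 0, 5040, 2910, 756, 6300, 639, 882, 378, 0,
    4536], [8568, 5040, 5040, 5040, 0, 4260, 504, 2520, 426, 756, 420, 0, 4536], [7926, 3300,
    2520, 2910, 4260, 0, 1464, 5130, 266, 1200, 224, 180, 3312], [3780, 504, 1008, 756, 504, 1464,
    0, 252, 0, 2520, 2520, 4536, 0], [9576, 5040, 7560, 6300, 2520, 5130, 252, 0, 213, 504, 336,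
    0, 3402], [135, 426, 852, 639, 426, 266, 0, 213, 0, 165, 165, 414, 255], [2520, 504, 1260,
    882, 756, 1200, 2520, 504, 165, 0, 1680, 2268, 0], [0, 168, 588, 378, 420, 224, 2520, 336,
    165, 1680, 0, 924, 0], [0, 0, 0, 0, 0, 180, 4536, 0, 414, 2268, 924, 0, 0], [5670, 2268, 6804,
    4536, 4536, 3312, 0, 3402, 255, 0, 0, 0, 0]]
  D := 5040
  p := [35, 32, 29, 51, 72, 100, 127, 64, 82, 38, 13]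
  cu := [(⟨[0, 0, 0, 0, 0, 0, 0, 0, 1, 0, 1, 0, 0], 3, [1, 0, 0, 0, 0, 0, 0, 0, 0, 0, 0], [1, 0,
    0, 0, 0, 0, 0, 0, 0, 0, 0]⟩, .same), (⟨[0, 0, 0, 0, 0, 0, 0, 0, 0, 1, 1, 2, 0], 1, [2, 2, 2,
    3, 4, 5, 6, 3, 4, 2, 1], [0, 0, 0, 0, 0, 0, 0, 0, 0, 0, 1]⟩, .ty ⟨[[0, 0, 0, 0, 0, 0, 0, 1, 0,
    0, 0], [0, 0, 0, 0, 1, 1, 1, 0, 1, 0, 0], [0, 0, 0, 0, 0, 0, 0, 0, -1, 0, 0], [0, 0, 0, -1,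
    -2, -2, -2, -1, -1, -1, 0], [0, 0, 0, 0, 0, 0, 1, 0, 1, 1, 0], [0, 0, 0, 0, 0, 1, 0, 0, 0, 0,
    0], [-2, -2, -2, -3, -4, -6, -8, -4, -5, -2, -1], [-1, 0, -2, -3, -4, -5, -6, -3, -4, -2, 0],
    [1, -1, 0, 0, 0, 0, 0, 0, 0, 0, 0]], [0, 0, 0, 0, 0, 0, 0, 1, 1], [[45, 36, 27, 18, 30, 15, 9,
    0, 0], [36, 48, 36, 24, 24, 12, 12, 0, 0], [27, 36, 45, 30, 18, 9, 15, 0, 0], [18, 24, 30, 36,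
    12, 6, 18, 0, 0], [30, 24, 18, 12, 36, 18, 6, 0, 0], [15, 12, 9, 6, 18, 21, 3, 0, 0], [9, 12,
    15, 18, 6, 3, 21, 0, 0], [0, 0, 0, 0, 0, 0, 0, 16, 8], [0, 0, 0, 0, 0, 0, 0, 8, 16]],
    24⟩ 2 2), (⟨[3, 2, 4, 3, 2, 2, 0, 1, 0, 0, 0, 0, 1], 1, [2, 2, 2, 3, 4, 5, 6, 3, 4, 2, 1], [0,
    0, 0, 0, 0, 0, 0, 0, 0, 0, 1]⟩, .ty ⟨[[0, 0, 0, 0, 0, 0, 0, 1, 0, 0, 0], [0, 0, 0, 0, 1, 1, 1,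
    0, 1, 0, 0], [0, 0, 0, 0, 0, 0, 0, 0, -1, 0, 0], [0, 0, 0, -1, -2, -2, -2, -1, -1, -1, 0], [0,
    0, 0, 0, 0, 0, 1, 0, 1, 1, 0], [0, 0, 0, 0, 0, 1, 0, 0, 0, 0, 0], [-2, -2, -2, -3, -4, -6, -8,
    -4, -5, -2, -1], [-1, 0, -2, -3, -4, -5, -6, -3, -4, -2, 0], [1, -1, 0, 0, 0, 0, 0, 0, 0, 0,
    0]], [0, 0, 0, 0, 0, 0, 0, 1, 1], [[45, 36, 27, 18, 30, 15, 9, 0, 0], [36, 48, 36, 24, 24, 12,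
    12, 0, 0], [27, 36, 45, 30, 18, 9, 15, 0, 0], [18, 24, 30, 36, 12, 6, 18, 0, 0], [30, 24, 18,
    12, 36, 18, 6, 0, 0], [15, 12, 9, 6, 18, 21, 3, 0, 0], [9, 12, 15, 18, 6, 3, 21, 0, 0], [0, 0,
    0, 0, 0, 0, 0, 16, 8], [0, 0, 0, 0, 0, 0, 0, 8, 16]], 24⟩ 2 2), (⟨[5, 2, 6, 4, 4, 3, 2, 3, 0,
    1, 0, 0, 0], 1, [1, 0, 0, 0, 0, 0, 0, 0, 0, 0, 0], [1, 0, 0, 0, 0, 0, 0, 0, 0, 0, 0]⟩, .same)]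
  κ := [0, 0, 0, 0, 0, 0, 0, 0, 0, 0, 1]
  q := 8
  R := [0, 0, 58, 114, 168, 220, 270, 136, 182, 92, 0]
  wd := [[]]

theorem dat9_ok : datB (blk hyp (gr [(.E 8, 1), (.A 1, 3)])) dat9
    (ok1 (blk hyp (gr [(.E 8, 1), (.A 1, 3)])) dat9) = true := by
  decide +kernel

end Pool.Agent.CN3
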