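import Pool.Agent.Helper25_CN3.RAll
import Pool.Agent.Helper25_CN3.Dat0
import Pool.Agent.Helper25_CN3.Dat1
import Pool.Agent.Helper25_CN3.Dat2
import Pool.Agent.Helper25_CN3.Dat3
import Pool.Agent.Helper25_CN3.Dat4
import Pool.Agent.Helper25_CN3.Dat5
import Pool.Agent.Helper25_CN3.Dat6
import Pool.Agent.Helper25_CN3.Dat7
import Pool.Agent.Helper25_CN3.Dat8
import Pool.Agent.Helper25_CN3.Dat9
import Pool.Agent.Helper25_CN3.Dat10
import Pool.Agent.Helper25_CN3.Dat11
import Pool.Agent.Helper25_CN3.Dat12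

/-!
Squad CN3, Part 1: the result
-/

noncomputable section

namespace Pool.Agent.CN3

open Pool.Agent.H25Cong Pool.Agent.CON Pool.Agent.CN2

theorem r_ort (h1 : V_IP) (hT : T_TIM) (hall : R_ALL) (hwrd : W_WRD) (hfix : W_FIX)
    (hX : X_D44) : R_ORT := by
  intro n l hl hn a ha
  have hBG : ∀ (d : Dat) (ok : List ℕ → Bool), datB (blk hyp (gr l)) d ok = true →
      BG a (blk hyp (gr l)) := by
    intro d ok hd
    have := (datB_parts hd).1
    rw [blk_len l hn] at this
    exact ⟨this, ha⟩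
  have one : ∀ d : Dat, datB (blk hyp (gr l)) d (ok1 (blk hyp (gr l)) d) = true →
      ∃ N : ℕ, 0 < N ∧ CongSub (Submodule.span ℤ (Set.range a)) N
        (RefL (Submodule.span ℤ (Set.range a))) := fun d hd =>
    ⟨1, one_pos, ort_one h1 hT hall hwrd hfix a _ d (hBG d _ hd) hd⟩
  simp only [reps, List.mem_cons, List.not_mem_nil, or_false] at hl
  rcases hl with rfl | rfl | rfl | rfl | rfl | rfl | rfl | rfl | rfl | rfl | rfl | rfl | rfl
  · exact one dat0 dat0_ok
  · exact one dat1 dat1_ok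
  · exact one dat2 dat2_ok
  · exact one dat3 dat3_ok
  · exact one dat4 dat4_ok
  · exact one dat5 dat5_ok
  · exact one dat6 dat6_ok
  · exact one dat7 dat7_ok
  · exact one dat8 dat8_ok
  · exact one dat9 dat9_ok
  · exact one dat10 dat10_ok
  · exact one dat11 dat11_ok
  · have h10 : n = 10 := by
      rw [← hn]
      rfl
    subst h10
    exact ⟨2, two_pos, ort_two h1 hT hall hwrd hfix hX a dat12 (hBG dat12 _ dat12_ok) dat12_ok rfl⟩

end Pool.Agent.CN3

end
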