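import Pool.Agent.Helper25_CN3.Stmts
import Pool.Agent.Helper26_CN3.V

noncomputable section

namespace Pool.Agent.CN3.H25

open Pool.Agent.H25Cong Pool.Agent.CON Pool.Agent.CN2 Pool.Agent.H26CN3

lemma getD_map' {α β : Type} (f : α → β) (l : List α) (i : ℕ) (d : α) (e : β) (h : i < l.length) :
    (l.map f).getD i e = f (l.getD i d) := by
  rw [List.getD_eq_getElem _ _ (by simpa using h), List.getD_eq_getElem _ _ h, List.getElem_map]

theorem v_crt : V_CRT := by
  intro n a G A c D hG hc hcl hcr x
  obtain ⟨h1, h2⟩ := sym_iff _ _ hG.sym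
  set k := A.length with hk
  have hP : ∀ (p : Fin (n + 1)) (r : List ℤ),
      B (a p) (lv a r) = ((dot (G.getD p []) r : ℤ) : ℝ) := by
    intro p r
    rw [dot_eq _ r (n + 1) (Or.inl (h2 p p.2).le)]
    unfold lv
    rw [B_sum_right, Finset.sum_range, Int.cast_sum]
    refine Finset.sum_congr rfl fun j _ => ?_
    rw [B_smul_right, hG.gram]
    push_cast
    unfold ent
    ring
  have key : ∀ p q : ℕ, p < n + 1 → q < n + 1 → D * ent G p q =
      - ∑ i ∈ Finset.range k, ∑ j ∈ Finset.range k,
        ent c i j * (dot (G.getD p []) (A.getD i []) * dot (G.getD q []) (A.getD j [])) := by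
    intro p q hp hq
    unfold certB at hc
    rw [decide_eq_true_eq] at hc
    have e := congrArg (fun M => ent M p q) hc
    simp only [ent] at e
    rw [getD_map' _ G p [] [] (by omega), getD_map' _ _ q 0 0 (by rw [h2 p hp]; exact hq)] at e
    have hl : (List.map (fun j => List.map (fun r => dot (G.getD j []) r) A)
        (List.range G.length)).length = n + 1 := by simp [h1]
    have hX : ∀ p < n + 1, (List.map (fun j => List.map (fun r => dot (G.getD j []) r) A)
        (List.range G.length)).getD p [] = A.map fun r => dot (G.getD p []) r := by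
      intro p hp
      rw [getD_map' _ _ p 0 [] (by simpa [h1] using hp)]
      rw [List.getD_eq_getElem (List.range G.length) _ (by simpa [h1] using hp), List.getElem_range]
    generalize hXX : (List.map (fun j => List.map (fun r => dot (G.getD j []) r) A)
        (List.range G.length)) = X at e hl hX
    have hrow : ((mulT X (List.map (fun j => List.map (fun r => r.getD j 0) (mulT c X))
        (List.range G.length))).map fun r => r.map fun z => -z).getD p [] =
        (((List.map (fun j => List.map (fun r => r.getD j 0) (mulT c X))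
          (List.range G.length)).map fun v => dot (X.getD p []) v)).map fun z => -z := by
      rw [getD_map' _ _ p [] [] (by simpa [mulT, hl] using hp)]
      congr 1
      unfold mulT
      rw [getD_map' _ _ p [] [] (by rw [hl]; exact hp)]
    rw [hrow, getD_map' _ _ q 0 0 (by simpa [h1] using hq),
      getD_map' _ _ q [] 0 (by simpa [h1] using hq), getD_map' _ _ q 0 [] (by simpa [h1] using hq),
      List.getD_eq_getElem (List.range G.length) _ (by simpa [h1] using hq),
      List.getElem_range, hX p hp] at e
    unfold ent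
    rw [e, neg_inj, dot_eq _ _ k (Or.inl (by simp [hk]))]
    refine Finset.sum_congr rfl fun i hi => ?_
    have hi' : i < k := Finset.mem_range.1 hi
    rw [getD_map' _ A i [] 0 (by rw [← hk]; exact hi')]
    have hY : (List.map (fun r => r.getD q 0) (mulT c X)).getD i 0 =
        dot (c.getD i []) (A.map fun r => dot (G.getD q []) r) := by
      rw [getD_map' _ _ i [] 0 (by simpa [mulT, hcl] using hi')]
      unfold mulT
      rw [getD_map' _ c i [] [] (by rw [hcl]; exact hi'), getD_map' _ _ q [] 0 (by rw [hl]; exact hq),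
        hX q hq]
    rw [hY, dot_eq (c.getD i []) _ k (Or.inr (by simp [hk])), Finset.mul_sum]
    refine Finset.sum_congr rfl fun j hj => ?_
    have hj' : j < k := Finset.mem_range.1 hj
    rw [getD_map' _ A j [] 0 (by rw [← hk]; exact hj')]
    ring
  have hx : x = ∑ p, a.repr x p • a p := (a.sum_repr x).symm
  have hB : ∀ y, B x y = ∑ p, a.repr x p * B (a p) y := by
    intro y
    conv_lhs => rw [hx]
    rw [B_sum_left]
    exact Finset.sum_congr rfl fun p _ => by rw [B_smul_left]
  have e1 : B x x = ∑ p, ∑ q, a.repr x p * (a.repr x q * (ent G p q : ℝ)) := by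
    rw [hB x]
    refine Finset.sum_congr rfl fun p _ => ?_
    rw [B_comm, hB, Finset.mul_sum]
    refine Finset.sum_congr rfl fun q _ => ?_
    rw [B_comm, hG.gram]
  rw [e1, Finset.mul_sum]
  have e2 : ∀ i : ℕ, B x (lv a (A.getD i [])) =
      ∑ p : Fin (n + 1), a.repr x p * ((dot (G.getD p []) (A.getD i []) : ℤ) : ℝ) := by
    intro i
    rw [hB]
    exact Finset.sum_congr rfl fun p _ => by rw [hP]
  have e3 : ∀ p q : Fin (n + 1), (D : ℝ) * (ent G p q : ℝ) =
      - ∑ i : Fin k, ∑ j : Fin k, ((ent c i j : ℤ) : ℝ) *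
        (((dot (G.getD p []) (A.getD i []) : ℤ) : ℝ) * ((dot (G.getD q []) (A.getD j []) : ℤ) : ℝ)) := by
    intro p q
    have := key p q p.2 q.2
    rw [Finset.sum_range] at this
    simp only [Finset.sum_range] at this
    exact_mod_cast this
  have e4 : ∀ p q : Fin (n + 1), (D : ℝ) * (a.repr x p * (a.repr x q * (ent G p q : ℝ))) =
      - ∑ i : Fin k, ∑ j : Fin k, ((ent c i j : ℤ) : ℝ) *
        ((a.repr x p * ((dot (G.getD p []) (A.getD i []) : ℤ) : ℝ)) *
          (a.repr x q * ((dot (G.getD q []) (A.getD j []) : ℤ) : ℝ))) := by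
    intro p q
    have : (D : ℝ) * (a.repr x p * (a.repr x q * (ent G p q : ℝ))) =
        a.repr x p * a.repr x q * ((D : ℝ) * (ent G p q : ℝ)) := by ring
    rw [this, e3, mul_neg, Finset.mul_sum]
    congr 1
    refine Finset.sum_congr rfl fun i _ => ?_
    rw [Finset.mul_sum]
    exact Finset.sum_congr rfl fun j _ => by ring
  simp only [Finset.mul_sum, e4, Finset.sum_neg_distrib, neg_inj]
  -- exchange the sums
  calc ∑ p, ∑ q, ∑ i : Fin k, ∑ j : Fin k, ((ent c i j : ℤ) : ℝ) *
        ((a.repr x p * ((dot (G.getD p []) (A.getD i []) : ℤ) : ℝ)) *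
          (a.repr x q * ((dot (G.getD q []) (A.getD j []) : ℤ) : ℝ)))
      = ∑ i : Fin k, ∑ j : Fin k, ∑ p : Fin (n + 1), ∑ q : Fin (n + 1), ((ent c i j : ℤ) : ℝ) *
        ((a.repr x p * ((dot (G.getD p []) (A.getD i []) : ℤ) : ℝ)) *
          (a.repr x q * ((dot (G.getD q []) (A.getD j []) : ℤ) : ℝ))) := by
        rw [Finset.sum_congr rfl fun p _ => Finset.sum_comm]
        rw [Finset.sum_comm]
        refine Finset.sum_congr rfl fun i _ => ?_
        rw [Finset.sum_congr rfl fun p _ => Finset.sum_comm]
        rw [Finset.sum_comm]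
    _ = _ := by
        refine Finset.sum_congr rfl fun i _ => Finset.sum_congr rfl fun j _ => ?_
        rw [e2, e2, Finset.sum_mul_sum, Finset.mul_sum]
        exact Finset.sum_congr rfl fun p _ => by rw [Finset.mul_sum]

end Pool.Agent.CN3.H25

end
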