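import Pool.Agent.Helper25_CN3.RAll

noncomputable section

namespace Pool.Agent.CN3.H25

open Pool.Agent.H25Cong Pool.Agent.CON Pool.Agent.CN2

lemma nondeg {n : ℕ} {x : V n} (h : ∀ y, B x y = 0) : x = 0 := by
  funext i
  by_cases hi : i = 0
  · subst hi
    have := h (ep 0)
    rw [B_ep_zero] at this
    simpa using this
  · have := h (ep i)
    rw [B_ep x hi] at this
    simpa using this

theorem w_fix : W_FIX := by
  intro n a G q hG _ _ hs g hg hfix
  have hlen := BG_len hG
  have hav : ∀ i : Fin (n + 1), av a i = a i := fun i => by
    unfold av
    rw [dif_pos i.2]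
  by_cases hq : q + 2 = n + 1
  · have : g = 1 := a.ext' fun i => by
      rw [one_ap, ← hav]
      exact hfix i (by omega)
    rw [this]
    exact one_mem _
  · simp only [simB, Bool.and_eq_true, Bool.or_eq_true, decide_eq_true_eq, List.all_eq_true,
      List.mem_range] at hs
    obtain ⟨-, hs⟩ := hs
    rcases hs with hs | ⟨⟨hs, hN⟩, h0⟩
    · omega
    have hq3 : q + 3 = n + 1 := by omega
    set b := av a (q + 2) with hb
    have hbb : B b b = ent G (q + 2) (q + 2) := ent_av hG (by omega) (by omega)
    have hN' : (4 : ℝ) ≤ B b b := by
      rw [hbb]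
      exact_mod_cast hN
    have hb0 : ∀ i < q + 2, B b (av a i) = 0 := by
      intro i hi
      rw [hb, ent_av hG (by omega) (by omega), h0 i hi, Int.cast_zero]
    have hgi : ∀ x y, B (g x) (g y) = B x y := hg.1
    set c : ℝ := B (g b) b / B b b with hc
    have hx : g b - c • b = 0 := by
      refine nondeg fun y => ?_
      have hy : y = ∑ i, a.repr y i • a i := (a.sum_repr y).symm
      rw [hy, B_sum_right]
      refine Finset.sum_eq_zero fun i _ => ?_
      rw [B_smul_right]
      refine mul_eq_zero_of_right _ ?_
      rw [← hav]
      rcases Nat.lt_or_ge i (q + 2) with hi | hi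
      · rw [B_sub_left, B_smul_left, hb0 i hi]
        have := hgi b (av a i)
        rw [hfix i hi, hb0 i hi] at this
        rw [this]
        ring
      · have : (i : ℕ) = q + 2 := by omega
        rw [this, ← hb, B_sub_left, B_smul_left, hc]
        field_simp
        ring
    have hgb : g b = c • b := sub_eq_zero.1 hx
    have hcc : c ^ 2 = 1 := by
      have := hgi b b
      rw [hgb, B_smul_left, B_smul_right] at this
      have h2 : (c ^ 2 - 1) * B b b = 0 := by nlinarith
      rcases mul_eq_zero.1 h2 with h | h
      · linarith
      · linarith
    have hpm : c = 1 ∨ c = -1 := by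
      have : (c - 1) * (c + 1) = 0 := by nlinarith [hcc]
      rcases mul_eq_zero.1 this with h | h
      · exact Or.inl (by linarith)
      · exact Or.inr (by linarith)
    rcases hpm with h1 | h1
    · have : g = 1 := a.ext' fun i => by
        rw [one_ap, ← hav]
        rcases Nat.lt_or_ge i (q + 2) with hi | hi
        · exact hfix i hi
        · have : (i : ℕ) = q + 2 := by omega
          rw [this, ← hb, hgb, h1, one_smul]
      rw [this]
      exact one_mem _
    · have hSi : ∀ i < q + 2, S b (av a i) = av a i := by
        intro i hi
        rw [S_apply, B_comm, hb0 i hi]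
        simp
      have hSb : S b b = - b := S_self b (by linarith)
      have : g = S b := a.ext' fun i => by
        rw [← hav]
        rcases Nat.lt_or_ge i (q + 2) with hi | hi
        · rw [hfix i hi, hSi i hi]
        · have : (i : ℕ) = q + 2 := by omega
          rw [this, ← hb, hgb, hSb, h1, neg_one_smul]
      rw [this]
      refine Subgroup.subset_closure ⟨⟨b, by linarith, fun x => S_apply b x⟩, fun x hx => ?_⟩
      induction hx using Submodule.span_induction with
      | mem x hx =>
        obtain ⟨i, rfl⟩ := hx
        rw [← hav]
        rcases Nat.lt_or_ge i (q + 2) with hi | hi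
        · rw [hSi i hi]
          exact av_mem a i
        · have : (i : ℕ) = q + 2 := by omega
          rw [this, ← hb, hSb]
          exact (LL a).neg_mem (av_mem a _)
      | zero => rw [map_zero]; exact Submodule.zero_mem _
      | add x y _ _ hx hy => rw [map_add]; exact Submodule.add_mem _ hx hy
      | smul z x _ hx => rw [map_zsmul]; exact Submodule.smul_mem _ z hx

end Pool.Agent.CN3.H25

end
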