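import Pool.Agent.Helper17_CN3.Tim
import Pool.Agent.Helper21_CN3.Hyp
import Pool.Agent.Helper25_CN3.ONrm
import Pool.Agent.Helper25_CN3.RAll
import Pool.Agent.Helper25_CN3.ROrt
import Pool.Agent.Helper25_CN3.VCrt
import Pool.Agent.Helper25_CN3.WFix
import Pool.Agent.Helper26_CN3.CDsc
import Pool.Agent.Helper26_CN3.V
import Pool.Agent.Helper26_CN3.WPrm
import Pool.Agent.Helper27_CN3.Sgn
import Pool.Agent.Helper27_CN3.Typ
import Pool.Agent.Helper39_CN3.Prm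
import Pool.Agent.Helper43_CN3.OPck
import Pool.Agent.Helper43_CN3.STrn
import Pool.Agent.Helper47_CN3.Ccus
import Pool.Agent.Helper47_CN3.Tref
import Pool.Agent.Helper4_CN3.XD44
import Pool.Agent.Helper50_CN3.CHit
import Pool.Agent.Helper50_CN3.TIso
import Pool.Agent.Helper70_CN3.Wrd
import Pool.Agent.Helper83_CN3.SStb
import Pool.Agent.Helper83_CN3.WAut
import Pool.Agent.Helper94_CN3.EvnRot

/-!
Squad CN3, block 1: all the modules, discharged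
-/

noncomputable section

namespace Pool.Agent.CN3

open Pool.Agent.H25Cong Pool.Agent.CON Pool.Agent.CN2

theorem pO_PCK : O_PCK := H43.o_pck

theorem pV_CRT : V_CRT := H25.v_crt

theorem pW_FIX : W_FIX := H25.w_fix

theorem pT_TIM : T_TIM := H17.t_tim

theorem pT_REF : T_REF := Pool.Agent.H47.CN3.t_ref pT_TIM

theorem pV_IP : V_IP := Pool.Agent.H26CN3.v_ip

theorem pV_MEM : V_MEM := Pool.Agent.H26CN3.v_mem

theorem pV_ROT : V_ROT := Pool.Agent.H94.v_rot pV_IP pV_MEM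

theorem pC_HIT : C_HIT := H50.c_hit

theorem pT_ISO : T_ISO := H50.t_iso pT_TIM

theorem pP_PRM : P_PRM := H39.p_prm pV_MEM pV_IP

theorem pW_AUT : W_AUT := H83.w_aut

theorem pW_WRD : W_WRD := H70.w_wrd pV_ROT pV_MEM

theorem pV_HYP : V_HYP := H21.v_hyp pV_MEM

theorem pV_EVN : V_EVN := Pool.Agent.H94.v_evn pV_IP pV_MEM

theorem pC_DSC : C_DSC := Pool.Agent.H26CN3.c_dsc pV_IP pV_MEM pV_ROT pT_REF

theorem pX_D44 : X_D44 := H4.x_d44 pV_EVN pV_MEM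

theorem pO_DIV : O_DIV := H39.o_div pV_IP pV_MEM pV_HYP

theorem pC_CUS : C_CUS := Pool.Agent.H47.CN3.c_cus pV_IP pV_MEM pV_ROT pV_CRT pT_TIM pC_DSC pC_HIT

theorem pS_TRN : S_TRN := H43.s_trn pV_HYP pV_MEM pV_EVN

theorem pW_SGN : W_SGN := Pool.Agent.H27.CN3.w_sgn pV_HYP pV_EVN pV_MEM

theorem pO_NRM : O_NRM := H25.o_nrm pV_HYP pV_EVN

theorem pO_TYP : O_TYP := Pool.Agent.H27.CN3.o_typ pV_IP pV_MEM pV_HYP pO_NRM

theorem pW_PRM : W_PRM := Pool.Agent.H26CN3.w_prm pV_IP pV_MEM pV_HYP pV_EVN pW_SGN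

theorem pS_STB : S_STB := H83.s_stb pV_HYP pS_TRN

theorem pR_ALL : R_ALL := r_all pV_IP pV_MEM pV_HYP pT_REF pT_ISO pC_CUS pP_PRM pO_DIV pO_TYP
    pO_PCK pS_STB pW_PRM pW_AUT

theorem pR_ORT : R_ORT := r_ort pV_IP pT_TIM pR_ALL pW_WRD pW_FIX pX_D44

end Pool.Agent.CN3

end
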