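import Pool.Agent.Helper25_CN3.Defs

/-!
Squad CN3: the data of the lattice number 12
-/

namespace Pool.Agent.CN3

open Pool.Agent.CN2

/-- the data -/
def dat12 : Dat where
  A := [[0, 0, 0, 0, 0, 0, 0, 1, 0, 0, 0], [0, 0, 0, 0, 0, 0, 0, -1, -1, 0, 0], [0, 0, 1, 2, 2, 1,
    0, 0, 0, 0, 0], [0, 0, 0, 0, 0, 0, 1, 2, 2, 1, 0], [0, 0, 0, -2, -1, -1, 0, 0, 0, 0, 0], [0,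
    0, 0, 1, 0, 0, 0, 0, 0, 0, 0], [0, 0, 0, 0, 0, 0, -1, -2, -1, -2, 0], [0, 0, 0, 0, 0, 1, 0, 0,
    0, 0, 0], [0, 0, 0, 0, 0, 0, 0, 0, 0, 0, 1], [-1, 0, 0, 0, 0, 0, -1, -1, 0, 0, 0], [-1, 0, -1,
    -1, 0, -1, 0, 0, 0, 0, 0], [-1, 0, 0, 0, 0, 0, 0, 0, 0, 0, -1], [1, -1, 0, 0, 0, 0, 0, 0, 0,
    0, 0], [-2, -2, -2, -2, -1, -1, -1, 0, 0, 1, -1]]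
  c := [[0, 2, 0, 2, 0, 0, 2, 0, 0, 2, 2, 0, 0, 0], [2, 0, 0, 1, 0, 0, 2, 0, 0, 4, 2, 0, 0, 0],
    [0, 0, 0, 0, 1, 2, 0, 2, 0, 0, 0, 0, 0, 1], [2, 1, 0, 0, 0, 0, 1, 0, 0, 3, 1, 0, 0, 0], [0, 0,
    1, 0, 0, 1, 0, 2, 0, 0, 0, 0, 0, 2], [0, 0, 2, 0, 1, 0, 0, 2, 0, 0, 0, 0, 0, 3], [2, 2, 0, 1,
    0, 0, 0, 0, 0, 2, 0, 0, 0, 0], [0, 0, 2, 0, 2, 2, 0, 0, 0, 0, 0, 0, 0, 2], [0, 0, 0, 0, 0, 0,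
    0, 0, 0, 0, 1, 1, 2, 0], [2, 4, 0, 3, 0, 0, 2, 0, 0, 0, 2, 0, 0, 0], [2, 2, 0, 1, 0, 0, 0, 0,
    1, 2, 0, 2, 2, 0], [0, 0, 0, 0, 0, 0, 0, 0, 1, 0, 2, 0, 2, 0], [0, 0, 0, 0, 0, 0, 0, 0, 2, 0,
    2, 2, 0, 0], [0, 0, 1, 0, 2, 3, 0, 2, 0, 0, 0, 0, 0, 0]]
  D := 4
  p := [32, 31, 22, 20, 4, 11, 18, 9, 2, -4, 11]
  cu := [(⟨[0, 0, 0, 0, 0, 0, 0, 0, 1, 0, 0, 1, 0, 0], 1, [1, 0, 0, 0, 0, 0, 0, 0, 0, 0, 0], [1,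
    0, 0, 0, 0, 0, 0, 0, 0, 0, 0]⟩, .same), (⟨[0, 0, 0, 0, 0, 0, 0, 0, 1, 0, 0, 0, 0, 1], 1, [2,
    2, 2, 2, 1, 1, 1, 0, 0, -1, 0], [0, 0, 0, 0, 0, 0, 0, 0, 0, -1, 0]⟩, .dv), (⟨[0, 0, 1, 0, 0,
    0, 1, 0, 0, 0, 0, 0, 0, 2], 1, [4, 4, 3, 2, 0, 1, 3, 2, 1, 0, 2], [0, 0, 0, 0, 0, 0, 0, 0, 1,
    0, 0]⟩, .dv), (⟨[0, 1, 0, 1, 0, 0, 1, 0, 0, 0, 0, 0, 0, 1], 1, [2, 2, 2, 2, 1, 1, 1, 1, 0, 0,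
    1], [0, 0, 0, 0, 0, 0, 0, 0, 0, 0, 1]⟩, .ty ⟨[[0, 0, 0, 1, 0, 0, 0, 0, 0, 0, 0], [0, 0, 0, 0,
    0, 1, 0, 0, 0, 0, 0], [-1, 0, -1, -1, 0, -1, 0, 0, 0, 0, 0], [1, -1, 0, 0, 0, 0, 0, 0, 0, 0,
    0], [-1, 0, 0, 0, 0, 0, -1, -1, 0, 0, 0]], [0, 0, 0, 0, 0], [[5, 4, 3, 2, 1], [4, 8, 6, 4, 2],
    [3, 6, 9, 6, 3], [2, 4, 6, 8, 4], [1, 2, 3, 4, 5]], 6⟩ 1 3), (⟨[0, 0, 1, 0, 1, 1, 0, 0, 0, 0,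
    0, 0, 0, 1], 1, [2, 2, 1, 1, 0, 1, 1, 0, 0, -1, 1], [0, 0, 0, 0, 0, 0, 0, 0, 0, 0, 1]⟩,
    .ty ⟨[[0, 0, 0, 0, 0, 0, 0, 1, 0, 0, 0], [0, 0, 0, 0, 0, 0, 0, -1, -1, 0, 0], [-1, 0, 0, 0, 0,
    0, -1, -1, 0, 0, 0], [1, -1, 0, 0, 0, 0, 0, 0, 0, 0, 0], [-1, 0, -1, -1, 0, -1, 0, 0, 0, 0,
    0]], [0, 0, 0, 0, 0], [[8, 4, 6, 4, 2], [4, 5, 3, 2, 1], [6, 3, 9, 6, 3], [4, 2, 6, 8, 4], [2,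
    1, 3, 4, 5]], 6⟩ 1 3), (⟨[2, 3, 0, 2, 0, 0, 1, 0, 0, 1, 0, 0, 0, 0], 1, [1, 0, 0, 0, 0, 0, 0,
    0, 0, 0, 0], [1, 0, 0, 0, 0, 0, 0, 0, 0, 0, 0]⟩, .same), (⟨[0, 0, 1, 0, 2, 3, 0, 2, 0, 0, 1,
    0, 0, 0], 1, [1, 0, 0, 0, 0, 0, 0, 0, 0, 0, 0], [1, 0, 0, 0, 0, 0, 0, 0, 0, 0, 0]⟩, .same),
    (⟨[0, 0, 0, 0, 1, 2, 0, 2, 0, 1, 2, 1, 2, 0], 1, [2, 2, 2, 2, 1, 1, 1, 1, 0, 0, 1], [0, 0, 0,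
    0, 0, 0, 0, 0, 0, 0, 1]⟩, .ty ⟨[[0, 0, 0, 1, 0, 0, 0, 0, 0, 0, 0], [0, 0, 0, 0, 0, 1, 0, 0, 0,
    0, 0], [-1, 0, -1, -1, 0, -1, 0, 0, 0, 0, 0], [1, -1, 0, 0, 0, 0, 0, 0, 0, 0, 0], [-1, 0, 0,
    0, 0, 0, -1, -1, 0, 0, 0]], [0, 0, 0, 0, 0], [[5, 4, 3, 2, 1], [4, 8, 6, 4, 2], [3, 6, 9, 6,
    3], [2, 4, 6, 8, 4], [1, 2, 3, 4, 5]], 6⟩ 1 3), (⟨[2, 2, 0, 1, 0, 0, 0, 0, 0, 2, 1, 1, 2, 0],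
    1, [2, 2, 1, 1, 0, 1, 1, 0, 0, -1, 1], [0, 0, 0, 0, 0, 0, 0, 0, 0, 0, 1]⟩, .ty ⟨[[0, 0, 0, 0,
    0, 0, 0, 1, 0, 0, 0], [0, 0, 0, 0, 0, 0, 0, -1, -1, 0, 0], [-1, 0, 0, 0, 0, 0, -1, -1, 0, 0,
    0], [1, -1, 0, 0, 0, 0, 0, 0, 0, 0, 0], [-1, 0, -1, -1, 0, -1, 0, 0, 0, 0, 0]], [0, 0, 0, 0,
    0], [[8, 4, 6, 4, 2], [4, 5, 3, 2, 1], [6, 3, 9, 6, 3], [4, 2, 6, 8, 4], [2, 1, 3, 4, 5]],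
    6⟩ 1 3), (⟨[2, 1, 0, 0, 0, 1, 0, 2, 0, 3, 3, 2, 4, 0], 1, [4, 4, 3, 2, 0, 1, 3, 2, 1, 0, 2],
    [0, 0, 0, 0, 0, 0, 0, 0, 1, 0, 0]⟩, .dv), (⟨[2, 2, 0, 1, 1, 2, 0, 2, 0, 2, 2, 0, 2, 0], 1, [2,
    2, 2, 2, 1, 1, 1, 0, 0, -1, 0], [0, 0, 0, 0, 0, 0, 0, 0, 0, -1, 0]⟩, .dv)]
  κ := [0, 0, 0, 0, 0, 0, 1, 1, 1, 1, 2]
  q := 9
  R := [0, 0, 6, 10, 6, 6, 6, 10, 6, 6, 1]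
  wd := [[], [[0, 0, 0, 0, 0, 0, 0, 0, 1, -1, 0]], [[0, 0, 0, 0, 0, 0, 1, 0, -1, 0, 0]], [[0, 0,
    0, 0, 0, 0, 1, 0, 0, -1, 0], [0, 0, 0, 0, 0, 0, 1, 0, -1, 0, 0]], [[0, 0, 0, 0, 0, 0, 0, 0, 1,
    -1, 0], [0, 0, 0, 0, 0, 0, 1, 0, -1, 0, 0]], [[0, 0, 0, 0, 0, 0, 1, 0, 0, -1, 0]], [[0, 0, 0,
    0, 1, -1, 0, 0, 0, 0, 0]], [[0, 0, 0, 0, 0, 0, 0, 0, 1, -1, 0], [0, 0, 0, 0, 1, -1, 0, 0, 0,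
    0, 0]], [[0, 0, 0, 0, 0, 0, 1, 0, -1, 0, 0], [0, 0, 0, 0, 1, -1, 0, 0, 0, 0, 0]], [[0, 0, 0,
    0, 0, 0, 1, 0, 0, -1, 0], [0, 0, 0, 0, 0, 0, 1, 0, -1, 0, 0], [0, 0, 0, 0, 1, -1, 0, 0, 0, 0,
    0]], [[0, 0, 0, 0, 0, 0, 0, 0, 1, -1, 0], [0, 0, 0, 0, 0, 0, 1, 0, -1, 0, 0], [0, 0, 0, 0, 1,
    -1, 0, 0, 0, 0, 0]], [[0, 0, 0, 0, 0, 0, 1, 0, 0, -1, 0], [0, 0, 0, 0, 1, -1, 0, 0, 0, 0, 0]],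
    [[0, 0, 1, 0, -1, 0, 0, 0, 0, 0, 0]], [[0, 0, 0, 0, 0, 0, 0, 0, 1, -1, 0], [0, 0, 1, 0, -1, 0,
    0, 0, 0, 0, 0]], [[0, 0, 0, 0, 0, 0, 1, 0, -1, 0, 0], [0, 0, 1, 0, -1, 0, 0, 0, 0, 0, 0]],
    [[0, 0, 0, 0, 0, 0, 1, 0, 0, -1, 0], [0, 0, 0, 0, 0, 0, 1, 0, -1, 0, 0], [0, 0, 1, 0, -1, 0,
    0, 0, 0, 0, 0]], [[0, 0, 0, 0, 0, 0, 0, 0, 1, -1, 0], [0, 0, 0, 0, 0, 0, 1, 0, -1, 0, 0], [0,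
    0, 1, 0, -1, 0, 0, 0, 0, 0, 0]], [[0, 0, 0, 0, 0, 0, 1, 0, 0, -1, 0], [0, 0, 1, 0, -1, 0, 0,
    0, 0, 0, 0]], [[0, 0, 1, 0, 0, -1, 0, 0, 0, 0, 0], [0, 0, 1, 0, -1, 0, 0, 0, 0, 0, 0]], [[0,
    0, 0, 0, 0, 0, 0, 0, 1, -1, 0], [0, 0, 1, 0, 0, -1, 0, 0, 0, 0, 0], [0, 0, 1, 0, -1, 0, 0, 0,
    0, 0, 0]], [[0, 0, 0, 0, 0, 0, 1, 0, -1, 0, 0], [0, 0, 1, 0, 0, -1, 0, 0, 0, 0, 0], [0, 0, 1,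
    0, -1, 0, 0, 0, 0, 0, 0]], [[0, 0, 0, 0, 0, 0, 1, 0, 0, -1, 0], [0, 0, 0, 0, 0, 0, 1, 0, -1,
    0, 0], [0, 0, 1, 0, 0, -1, 0, 0, 0, 0, 0], [0, 0, 1, 0, -1, 0, 0, 0, 0, 0, 0]], [[0, 0, 0, 0,
    0, 0, 0, 0, 1, -1, 0], [0, 0, 0, 0, 0, 0, 1, 0, -1, 0, 0], [0, 0, 1, 0, 0, -1, 0, 0, 0, 0, 0],
    [0, 0, 1, 0, -1, 0, 0, 0, 0, 0, 0]], [[0, 0, 0, 0, 0, 0, 1, 0, 0, -1, 0], [0, 0, 1, 0, 0, -1,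
    0, 0, 0, 0, 0], [0, 0, 1, 0, -1, 0, 0, 0, 0, 0, 0]], [[0, 0, 0, 0, 1, -1, 0, 0, 0, 0, 0], [0,
    0, 1, 0, -1, 0, 0, 0, 0, 0, 0]], [[0, 0, 0, 0, 0, 0, 0, 0, 1, -1, 0], [0, 0, 0, 0, 1, -1, 0,
    0, 0, 0, 0], [0, 0, 1, 0, -1, 0, 0, 0, 0, 0, 0]], [[0, 0, 0, 0, 0, 0, 1, 0, -1, 0, 0], [0, 0,
    0, 0, 1, -1, 0, 0, 0, 0, 0], [0, 0, 1, 0, -1, 0, 0, 0, 0, 0, 0]], [[0, 0, 0, 0, 0, 0, 1, 0, 0,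
    -1, 0], [0, 0, 0, 0, 0, 0, 1, 0, -1, 0, 0], [0, 0, 0, 0, 1, -1, 0, 0, 0, 0, 0], [0, 0, 1, 0,
    -1, 0, 0, 0, 0, 0, 0]], [[0, 0, 0, 0, 0, 0, 0, 0, 1, -1, 0], [0, 0, 0, 0, 0, 0, 1, 0, -1, 0,
    0], [0, 0, 0, 0, 1, -1, 0, 0, 0, 0, 0], [0, 0, 1, 0, -1, 0, 0, 0, 0, 0, 0]], [[0, 0, 0, 0, 0,
    0, 1, 0, 0, -1, 0], [0, 0, 0, 0, 1, -1, 0, 0, 0, 0, 0], [0, 0, 1, 0, -1, 0, 0, 0, 0, 0, 0]],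
    [[0, 0, 1, 0, 0, -1, 0, 0, 0, 0, 0]], [[0, 0, 0, 0, 0, 0, 0, 0, 1, -1, 0], [0, 0, 1, 0, 0, -1,
    0, 0, 0, 0, 0]], [[0, 0, 0, 0, 0, 0, 1, 0, -1, 0, 0], [0, 0, 1, 0, 0, -1, 0, 0, 0, 0, 0]],
    [[0, 0, 0, 0, 0, 0, 1, 0, 0, -1, 0], [0, 0, 0, 0, 0, 0, 1, 0, -1, 0, 0], [0, 0, 1, 0, 0, -1,
    0, 0, 0, 0, 0]], [[0, 0, 0, 0, 0, 0, 0, 0, 1, -1, 0], [0, 0, 0, 0, 0, 0, 1, 0, -1, 0, 0], [0,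
    0, 1, 0, 0, -1, 0, 0, 0, 0, 0]], [[0, 0, 0, 0, 0, 0, 1, 0, 0, -1, 0], [0, 0, 1, 0, 0, -1, 0,
    0, 0, 0, 0]]]

/-- the exchange of the two components D_4 -/
def tau : List ℕ := [4, 5, 6, 7, 0, 1, 2, 3, 8]

theorem dat12_ok : datB (blk hyp (gr [(.D 4, 1), (.D 4, 1), (.A 1, 1)])) dat12
    (ok2 (blk hyp (gr [(.D 4, 1), (.D 4, 1), (.A 1, 1)])) dat12 tau) = true := by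
  decide +kernel

end Pool.Agent.CN3
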