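import Pool.Agent.Helper25_CN2.AsmFin

/-!
Squad CN3 (MP_6d18f4_al, Q2: all the 13 groups occur), Part 1: the group O(L) is generated by
reflections. Definitions. Plan with complete proofs: /team-store/PLAN_CN3.md
-/

noncomputable section

namespace Pool.Agent.CN3

open Pool.Agent.H25Cong Pool.Agent.CON Pool.Agent.CN2

variable {n : ℕ}

/-- the vector with coordinates x in the basis a -/
def lv (a : Module.Basis (Fin (n + 1)) ℝ (V n)) (x : List ℤ) : V n :=
  ∑ i : Fin (n + 1), ((x.getD i 0 : ℤ) : ℝ) • a i

/-- the basis vectors, with numbers in ℕ -/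
def av (a : Module.Basis (Fin (n + 1)) ℝ (V n)) (k : ℕ) : V n :=
  if h : k < n + 1 then a ⟨k, h⟩ else 0

/-- the lattice spanned by the basis a -/
abbrev LL (a : Module.Basis (Fin (n + 1)) ℝ (V n)) : Submodule ℤ (V n) :=
  Submodule.span ℤ (Set.range a)

/-- the bilinear form with matrix G -/
def gip (G : List (List ℤ)) (x y : List ℤ) : ℤ := dot x (G.map fun r => dot r y)

/-- G is an m x m matrix, symmetric, with even diagonal -/
def symB (m : ℕ) (G : List (List ℤ)) : Bool :=
  decide (G.length = m) && G.all (fun r => decide (r.length = m)) && decide (trn m G = G) &&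
  (List.range m).all fun i => decide ((2 : ℤ) ∣ ent G i i)

/-- the basis a has the Gram matrix G -/
structure BG (a : Module.Basis (Fin (n + 1)) ℝ (V n)) (G : List (List ℤ)) : Prop where
  sym : symB (n + 1) G = true
  gram : ∀ i j : Fin (n + 1), B (a i) (a j) = ent G i j

/-- unit vector -/
def uv (m i : ℕ) : List ℤ := (List.range m).map fun j => if i = j then 1 else 0

/-- r is a root -/
def rootB (G : List (List ℤ)) (r : List ℤ) : Bool :=
  decide (r.length = G.length) && decide (0 < gip G r r) &&
  (List.range G.length).all fun j => decide (gip G r r ∣ 2 * gip G r (uv G.length j))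

/-- the combination sum_i ν_i A_i (vectors of length m) -/
def comb (m : ℕ) (ν : List ℤ) (A : List (List ℤ)) : List ℤ :=
  (List.range m).map fun j => dot ν (A.map fun r => r.getD j 0)

/-- the certificate D (x,x) = - sum_ij c_ij (x,A_i) (x,A_j) -/
def certB (G A c : List (List ℤ)) (D : ℤ) : Bool :=
  decide ((G.map fun g => g.map fun z => D * z) =
    (mulT ((List.range G.length).map fun j => (A.map fun r => dot (G.getD j []) r))
      ((List.range G.length).map fun j =>
        (mulT c ((List.range G.length).map fun j => (A.map fun r => dot (G.getD j []) r))).map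
          fun r => r.getD j 0)).map fun r => r.map fun z => -z)

/-- every set which meets all f in fs and contains T contains a pair with positive c -/
def hit (c : List (List ℤ)) : List (List ℕ) → List ℕ → Bool
  | [], _ => false
  | f :: fs, T => if f.any (fun x => T.contains x) then hit c fs T else
      f.all fun x => decide (0 < ent c x x) || T.any (fun y => decide (0 < ent c x y)) ||
        hit c fs (x :: T)

/-- the support -/
def supp (ν : List ℤ) : List ℕ := (List.range ν.length).filter fun i => decide (ν.getD i 0 ≠ 0)

/-- the null vector: sum ν_i A_i = - μ ε, ε isotropic and primitive (dot b ε = 1) -/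
structure Cu where
  ν : List ℤ
  μ : ℤ
  ε : List ℤ
  b : List ℤ

/-- check of a null vector -/
def nullB (G A : List (List ℤ)) (u : Cu) : Bool :=
  decide (u.ν.length = A.length) && u.ν.all (fun z => decide (0 ≤ z)) && decide (u.μ ≠ 0) &&
  decide (u.ε.length = G.length) && decide (u.b.length = G.length) && decide (dot u.b u.ε = 1) &&
  decide (gip G u.ε u.ε = 0) &&
  decide (comb G.length u.ν A = u.ε.map fun z => -(u.μ * z))

/-- check of the fundamental chamber -/
def cusB (G A c : List (List ℤ)) (D : ℤ) (p : List ℤ) (cu : List Cu) : Bool :=
  A.all (rootB G) && A.all (fun r => decide (0 < gip G p r)) && decide (gip G p p < 0) &&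
  decide (p.length = G.length) && decide (0 < D) && decide (c.length = A.length) &&
  c.all (fun r => decide (r.length = A.length) && r.all fun z => decide (0 ≤ z)) &&
  certB G A c D && cu.all (nullB G A) && hit c (cu.map fun u => supp u.ν) []

/-- the first two basis vectors are a hyperbolic pair orthogonal to the others -/
def hypB (G : List (List ℤ)) : Bool :=
  decide (ent G 0 0 = 0) && decide (ent G 1 1 = 0) && decide (ent G 0 1 = -1) &&
  decide (ent G 1 0 = -1) &&
  (List.range G.length).all fun k => decide (k < 2) ||
    (decide (ent G 0 k = 0) && decide (ent G 1 k = 0) && decide (ent G k 0 = 0) &&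
      decide (ent G k 1 = 0))

/-- obstruction by the type: κ = numbers of the components of the coordinates, Δ = a list of
vectors of norm 2 orthogonal to ε, β = their blocks -/
structure Ob where
  Δ : List (List ℤ)
  β : List ℕ
  K : List (List ℤ)
  D : ℤ

/-- check of the obstruction -/
def typB (G : List (List ℤ)) (κ : List ℕ) (ε : List ℤ) (o : Ob) : Bool :=
  decide (κ.length = G.length) &&
  (List.range G.length).all (fun i => (List.range G.length).all fun j => decide (i < 2) ||
    decide (j < 2) || decide (κ.getD i 0 = κ.getD j 0) || decide (ent G i j = 0)) &&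
  o.Δ.all (fun δ => decide (δ.length = G.length) && decide (gip G δ δ = 2) &&
    decide (gip G δ ε = 0)) &&
  decide (o.β.length = o.Δ.length) &&
  (List.range o.β.length).all (fun i =>
    (List.range i).all (fun j => decide (o.β.getD j 0 ≠ o.β.getD i 0)) ||
    (List.range i).any (fun j => decide (o.β.getD j 0 = o.β.getD i 0) &&
      decide (gip G (o.Δ.getD i []) (o.Δ.getD j []) ≠ 0))) &&
  decide (o.K.length = o.Δ.length) && o.K.all (fun r => decide (r.length = o.Δ.length)) &&
  decide (o.D ≠ 0) &&
  decide (mulT (o.Δ.map fun x => o.Δ.map fun y => gip G x y) o.K =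
    mat o.Δ.length fun i j => if i = j then o.D else 0)

/-- number of i < k with f i = j -/
def cnt (k : ℕ) (f : ℕ → ℕ) (j : ℕ) : ℕ := ((List.range k).filter fun i => decide (f i = j)).length

/-- all lists of length s with entries < t -/
def maps (t : ℕ) : ℕ → List (List ℕ)
  | 0 => [[]]
  | s + 1 => (maps t s).flatMap fun l => (List.range t).map fun v => v :: l

/-- the blocks (sizes given by β, numbers < s) cannot be packed into the components (κ, numbers
in 0..t-1 for the coordinates 2, 3, ...) -/
def packB (κ β : List ℕ) (s t : ℕ) : Bool :=
  decide (0 < t) && β.all (fun b => decide (b < s)) &&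
  (List.range (κ.length - 2)).all (fun i => decide (κ.getD (i + 2) 0 < t)) &&
  (maps t s).all fun σ => (List.range t).any fun j =>
    decide (cnt (κ.length - 2) (fun i => κ.getD (i + 2) 0) j <
      cnt β.length (fun i => σ.getD (β.getD i 0) 0) j)

/-- check: the basis vectors a_k, k ≥ 2, are roots with (a_k, L) divisible by half the norm -/
def trnB (G : List (List ℤ)) : Bool :=
  (List.range G.length).all fun k => decide (k < 2) ||
    (decide (0 < ent G k k) &&
      (List.range G.length).all fun j => decide (ent G k k ∣ 2 * ent G k j))

/-- check: a_2, ..., a_{q+1} are simple roots of norm 2, which generate all the vectors of norm 2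
orthogonal to a_0 and a_1 -/
def simB (G : List (List ℤ)) (q : ℕ) : Bool :=
  (List.range G.length).all (fun i => (List.range G.length).all fun j =>
    decide (i < 2) || decide (j < 2) || decide (q + 2 ≤ i) || decide (q + 2 ≤ j) ||
      (if i = j then decide (ent G i j = 2) else decide (ent G i j ≤ 0))) &&
  (decide (q + 2 = G.length) || (decide (q + 3 = G.length) && decide (4 ≤ ent G (q + 2) (q + 2)) &&
    (List.range (q + 2)).all fun j => decide (ent G (q + 2) j = 0)))

/-- check of twice the Weyl vector -/
def weyB (G : List (List ℤ)) (q : ℕ) (R : List ℤ) : Bool :=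
  decide (R.length = G.length) &&
  (List.range G.length).all fun k =>
    if 2 ≤ k ∧ k < q + 2 then decide (0 < R.getD k 0) && decide (gip G R (uv G.length k) = 2)
    else decide (R.getD k 0 = 0)

/-- search for the automorphisms of the diagram: π is a partial map, given by the list of the
images of 0, 1, ... -/
def autB (G : List (List ℤ)) (q : ℕ) (ok : List ℕ → Bool) : ℕ → List ℕ → Bool
  | 0, π => ok π
  | k + 1, π => (List.range q).all fun v =>
      !((List.range π.length).all fun j =>
        decide (ent G (2 + π.length) (2 + j) = ent G (2 + v) (2 + π.getD j 0))) ||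
      autB G q ok k (π ++ [v])

/-- reflection of the vector x in the root r -/
def rfl1 (G : List (List ℤ)) (r x : List ℤ) : List ℤ :=
  List.zipWith (fun u v => u - 2 * gip G x r / gip G r r * v) x r

/-- the product of the reflections in the vectors of the word, applied to x (the last one first) -/
def rflW (G : List (List ℤ)) (w : List (List ℤ)) (x : List ℤ) : List ℤ :=
  w.foldr (fun r y => rfl1 G r y) x

/-- check: the word fixes a_0, a_1 and maps a_{2+i} to a_{2+π_i} -/
def wrdB (G : List (List ℤ)) (q : ℕ) (π : List ℕ) (w : List (List ℤ)) : Bool :=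
  w.all (rootB G) && decide (rflW G w (uv G.length 0) = uv G.length 0) &&
  decide (rflW G w (uv G.length 1) = uv G.length 1) &&
  (List.range q).all fun i =>
    decide (rflW G w (uv G.length (2 + i)) = uv G.length (2 + π.getD i 0))

/-- the reason why the null vector ε is not equivalent to a_0: ε = a_0 (no reason), ε has even
products with the lattice, or the type -/
inductive Ex
  | same
  | dv
  | ty (o : Ob) (s t : ℕ)

/-- check of the reason -/
def exB (G : List (List ℤ)) (κ : List ℕ) (u : Cu) : Ex → Bool
  | .same => decide (u.ε = uv G.length 0)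
  | .dv => G.all fun g => decide ((2 : ℤ) ∣ dot g u.ε)
  | .ty o s t => typB G κ u.ε o && packB κ o.β s t

/-- all the data for one of the 13 lattices -/
structure Dat where
  A : List (List ℤ)
  c : List (List ℤ)
  D : ℤ
  p : List ℤ
  cu : List (Cu × Ex)
  κ : List ℕ
  q : ℕ
  R : List ℤ
  wd : List (List (List ℤ))

/-- π is realized by a word of reflections -/
def ok1 (G : List (List ℤ)) (d : Dat) (π : List ℕ) : Bool := d.wd.any fun w => wrdB G d.q π w

/-- π or τ π is realized by a word of reflections -/
def ok2 (G : List (List ℤ)) (d : Dat) (τ : List ℕ) (π : List ℕ) : Bool :=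
  d.wd.any fun w => wrdB G d.q π w || wrdB G d.q (π.map fun i => τ.getD i 0) w

/-- check of all the data -/
def datB (G : List (List ℤ)) (d : Dat) (ok : List ℕ → Bool) : Bool :=
  symB G.length G && hypB G && trnB G && simB G d.q && weyB G d.q d.R &&
  cusB G d.A d.c d.D d.p (d.cu.map fun u => u.1) && decide (gip G d.p (uv G.length 0) < 0) &&
  d.cu.all (fun u => exB G d.κ u.1 u.2) && autB G d.q ok d.q []

end Pool.Agent.CN3

end
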