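import Pool.Agent.Helper25_CN3.Defs

/-!
Squad CN3 (MP_6d18f4_al, Q2), Part 1: the module statements.
Plan with complete proofs: /team-store/PLAN_CN3.md
-/

noncomputable section

namespace Pool.Agent.CN3

open Pool.Agent.H25Cong Pool.Agent.CON Pool.Agent.CN2

/-! ### Part V: coordinates -/

/-- V1: the form in coordinates -/
def V_IP : Prop := ∀ (n : ℕ) (a : Module.Basis (Fin (n + 1)) ℝ (V n)) (G : List (List ℤ)),
  BG a G → ∀ x y : List ℤ, B (lv a x) (lv a y) = ((gip G x y : ℤ) : ℝ)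

/-- V2: vectors of the lattice -/
def V_MEM : Prop := ∀ (n : ℕ) (a : Module.Basis (Fin (n + 1)) ℝ (V n)),
  (∀ x : List ℤ, lv a x ∈ LL a) ∧
  (∀ v ∈ LL a, ∃ x : List ℤ, x.length = n + 1 ∧ v = lv a x) ∧
  (∀ k : ℕ, lv a (uv (n + 1) k) = av a k) ∧
  (∀ v ∈ LL a, ∀ i, ∃ k : ℤ, a.repr v i = k)

/-- V3: the lattice is even -/
def V_EVN : Prop := ∀ (n : ℕ) (a : Module.Basis (Fin (n + 1)) ℝ (V n)) (G : List (List ℤ)),
  BG a G → EvenLat (LL a)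

/-- V4: roots -/
def V_ROT : Prop := ∀ (n : ℕ) (a : Module.Basis (Fin (n + 1)) ℝ (V n)) (G : List (List ℤ))
  (r : List ℤ), BG a G → rootB G r = true →
  0 < B (lv a r) (lv a r) ∧ S (lv a r) ∈ RefL (LL a) ∧ (∀ x ∈ LL a, S (lv a r) x ∈ LL a) ∧
  ∀ x : List ℤ, x.length = n + 1 → (rfl1 G r x).length = n + 1 ∧
    S (lv a r) (lv a x) = lv a (rfl1 G r x)

/-- V5: the certificate -/
def V_CRT : Prop := ∀ (n : ℕ) (a : Module.Basis (Fin (n + 1)) ℝ (V n)) (G A c : List (List ℤ))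
  (D : ℤ), BG a G → certB G A c D = true → c.length = A.length →
  (∀ r ∈ c, r.length = A.length) → ∀ x : V n,
  (D : ℝ) * B x x = - ∑ i : Fin A.length, ∑ j : Fin A.length,
    ((ent c i j : ℤ) : ℝ) * (B x (lv a (A.getD i [])) * B x (lv a (A.getD j [])))

/-- V6: the hyperbolic plane -/
def V_HYP : Prop := ∀ (n : ℕ) (a : Module.Basis (Fin (n + 1)) ℝ (V n)) (G : List (List ℤ)),
  BG a G → hypB G = true → 1 ≤ n ∧ B (av a 0) (av a 0) = 0 ∧ B (av a 1) (av a 1) = 0 ∧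
  B (av a 0) (av a 1) = -1 ∧
  (∀ k : ℕ, 2 ≤ k → B (av a k) (av a 0) = 0 ∧ B (av a k) (av a 1) = 0) ∧
  ∀ x ∈ LL a, ∃ z : ℕ → ℤ, x = ((z 0 : ℤ) : ℝ) • av a 0 + ((z 1 : ℤ) : ℝ) • av a 1 +
    ∑ k ∈ Finset.Ico 2 (n + 1), ((z k : ℤ) : ℝ) • av a k ∧
    B x (av a 1) = - (z 0 : ℤ) ∧ B x (av a 0) = - (z 1 : ℤ)

/-! ### Part T: time orientation -/

/-- T1 -/
def T_TIM : Prop := ∀ (n : ℕ) (p v w : V n), B p p < 0 →
  (v ≠ 0 → B v v ≤ 0 → B v p ≠ 0) ∧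
  (B v v ≤ 0 → B w w ≤ 0 → B v p < 0 → B w p < 0 → B v w ≤ 0) ∧
  (B v v ≤ 0 → B w w ≤ 0 → B v p < 0 → B v w < 0 → B w p < 0) ∧
  (v ≠ 0 → B v v = 0 → B w w = 0 → B v w = 0 → ∃ t : ℝ, w = t • v)

/-- T2: reflections preserve the time orientation -/
def T_REF : Prop := ∀ (n : ℕ) (L : Submodule ℤ (V n)) (g : V n ≃ₗ[ℝ] V n) (p v : V n),
  g ∈ RefL L → B p p < 0 → B v v ≤ 0 → B v p < 0 → B (g v) p < 0

/-- T3: isometries -/
def T_ISO : Prop := ∀ (n : ℕ) (g : V n ≃ₗ[ℝ] V n) (p v : V n),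
  Isom g → B p p < 0 → B (g p) p < 0 → B v v ≤ 0 → B v p < 0 → B (g v) p < 0

/-! ### Part C: the fundamental chamber and its null vectors -/

/-- C1: descent -/
def C_DSC : Prop := ∀ (n : ℕ) (a : Module.Basis (Fin (n + 1)) ℝ (V n)) (G A : List (List ℤ))
  (p : List ℤ), BG a G → (∀ r ∈ A, rootB G r = true) → (∀ r ∈ A, 0 < gip G p r) →
  gip G p p < 0 → ∀ v ∈ LL a, B v v ≤ 0 → B v (lv a p) < 0 →
  ∃ w ∈ RefL (LL a), ∀ r ∈ A, 0 ≤ B (w v) (lv a r)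

/-- C2: soundness of the search -/
def C_HIT : Prop := ∀ (c : List (List ℤ)) (fs : List (List ℕ)) (T : List ℕ) (P : ℕ → Prop),
  hit c fs T = true → (∀ x ∈ T, P x) → (∀ x y, P x → P y → ¬ 0 < ent c x y) →
  ∃ f ∈ fs, ∀ x ∈ f, ¬ P x

/-- C3: every null vector is equivalent to one in the list -/
def C_CUS : Prop := ∀ (n : ℕ) (a : Module.Basis (Fin (n + 1)) ℝ (V n)) (G A c : List (List ℤ))
  (D : ℤ) (p : List ℤ) (cu : List Cu), BG a G → cusB G A c D p cu = true →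
  ∀ v ∈ LL a, v ≠ 0 → B v v = 0 → B v (lv a p) < 0 →
  ∃ w ∈ RefL (LL a), ∃ u ∈ cu, nullB G A u = true ∧ ∃ t : ℝ, w v = t • lv a u.ε

/-- P1: primitive vectors -/
def P_PRM : Prop := ∀ (n : ℕ) (a : Module.Basis (Fin (n + 1)) ℝ (V n)) (G A : List (List ℤ))
  (u : Cu) (g : V n ≃ₗ[ℝ] V n) (t : ℝ), BG a G → nullB G A u = true → g ∈ OLat (LL a) →
  g (av a 0) = t • lv a u.ε → t = 1 ∨ t = -1

/-! ### Part O: obstructions -/

/-- O1: divisibility -/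
def O_DIV : Prop := ∀ (n : ℕ) (a : Module.Basis (Fin (n + 1)) ℝ (V n)) (G : List (List ℤ))
  (ε : List ℤ) (g : V n ≃ₗ[ℝ] V n), BG a G → hypB G = true →
  (G.all fun r => decide ((2 : ℤ) ∣ dot r ε)) = true → g ∈ OLat (LL a) →
  ¬ (g (av a 0) = lv a ε ∨ g (av a 0) = - lv a ε)

/-- O2: a vector of norm 2 orthogonal to a_0 lies, modulo a_0, in one component -/
def O_NRM : Prop := ∀ (n : ℕ) (a : Module.Basis (Fin (n + 1)) ℝ (V n)) (G : List (List ℤ))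
  (κ : ℕ → ℕ) (x : V n), BG a G → hypB G = true →
  (∀ i j : ℕ, 2 ≤ i → 2 ≤ j → i < n + 1 → j < n + 1 → κ i ≠ κ j → ent G i j = 0) →
  x ∈ LL a → B x (av a 0) = 0 → B x x = 2 →
  ∃ k : ℕ, 2 ≤ k ∧ k < n + 1 ∧ ∃ z : ℕ → ℤ, ∃ c : ℝ, x = c • av a 0 +
    ∑ j ∈ (Finset.Ico 2 (n + 1)).filter (fun j => κ j = κ k), ((z j : ℤ) : ℝ) • av a j

/-- O3: the type -/
def O_TYP : Prop := ∀ (n : ℕ) (a : Module.Basis (Fin (n + 1)) ℝ (V n)) (G : List (List ℤ))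
  (κ : List ℕ) (ε : List ℤ) (o : Ob) (g : V n ≃ₗ[ℝ] V n), BG a G → hypB G = true →
  typB G κ ε o = true → g ∈ OLat (LL a) → (g (av a 0) = lv a ε ∨ g (av a 0) = - lv a ε) →
  ∃ σ : ℕ → ℕ, ∀ j : ℕ, cnt o.β.length (fun i => σ (o.β.getD i 0)) j ≤
    cnt (κ.length - 2) (fun i => κ.getD (i + 2) 0) j

/-- O4: soundness of the packing check -/
def O_PCK : Prop := ∀ (κ β : List ℕ) (s t : ℕ), packB κ β s t = true →
  ¬ ∃ σ : ℕ → ℕ, ∀ j : ℕ, cnt β.length (fun i => σ (β.getD i 0)) j ≤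
    cnt (κ.length - 2) (fun i => κ.getD (i + 2) 0) j

/-! ### Part S: the stabilizer of a_0 -/

/-- S1: transvections -/
def S_TRN : Prop := ∀ (n : ℕ) (a : Module.Basis (Fin (n + 1)) ℝ (V n)) (G : List (List ℤ)),
  BG a G → hypB G = true → trnB G = true → ∀ m ∈ LL a, ∀ (he : B (av a 0) (av a 0) = 0)
  (hm : B m (av a 0) = 0), E (av a 0) m he hm ∈ RefL (LL a)

/-- S2: reduction to the stabilizer of a_0 and a_1 -/
def S_STB : Prop := ∀ (n : ℕ) (a : Module.Basis (Fin (n + 1)) ℝ (V n)) (G : List (List ℤ)),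
  BG a G → hypB G = true → trnB G = true → ∀ g ∈ OLat (LL a), g (av a 0) = av a 0 →
  ∃ w ∈ RefL (LL a), w (g (av a 0)) = av a 0 ∧ w (g (av a 1)) = av a 1

/-! ### Part W: the finite part -/

/-- W1: signs -/
def W_SGN : Prop := ∀ (n : ℕ) (a : Module.Basis (Fin (n + 1)) ℝ (V n)) (G : List (List ℤ))
  (q : ℕ), BG a G → hypB G = true → simB G q = true → ∀ x ∈ LL a, B x (av a 0) = 0 →
  B x (av a 1) = 0 → B x x = 2 →
  ∃ c : ℕ → ℕ, x = ∑ i ∈ Finset.range q, ((c i : ℕ) : ℝ) • av a (2 + i) ∨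
    x = - ∑ i ∈ Finset.range q, ((c i : ℕ) : ℝ) • av a (2 + i)

/-- W2: permutation of the simple roots -/
def W_PRM : Prop := ∀ (n : ℕ) (a : Module.Basis (Fin (n + 1)) ℝ (V n)) (G : List (List ℤ))
  (q : ℕ) (R : List ℤ), BG a G → hypB G = true → simB G q = true → weyB G q R = true →
  ∀ g ∈ OLat (LL a), g (av a 0) = av a 0 → g (av a 1) = av a 1 →
  ∃ w ∈ RefL (LL a), w (g (av a 0)) = av a 0 ∧ w (g (av a 1)) = av a 1 ∧
    ∃ π : ℕ → ℕ, (∀ i < q, π i < q) ∧ ∀ i < q, w (g (av a (2 + i))) = av a (2 + π i)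

/-- W3: soundness of the search for automorphisms -/
def W_AUT : Prop := ∀ (G : List (List ℤ)) (q : ℕ) (ok : List ℕ → Bool), autB G q ok q [] = true →
  ∀ π : ℕ → ℕ, (∀ i < q, π i < q) →
  (∀ i < q, ∀ j < q, ent G (2 + i) (2 + j) = ent G (2 + π i) (2 + π j)) →
  ok ((List.range q).map π) = true

/-- W4: words -/
def W_WRD : Prop := ∀ (n : ℕ) (a : Module.Basis (Fin (n + 1)) ℝ (V n)) (G : List (List ℤ))
  (q : ℕ) (π : List ℕ) (w : List (List ℤ)), BG a G → wrdB G q π w = true →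
  ∃ g ∈ RefL (LL a), g (av a 0) = av a 0 ∧ g (av a 1) = av a 1 ∧
    ∀ i < q, g (av a (2 + i)) = av a (2 + π.getD i 0)

/-- W5: isometries which fix almost all basis vectors -/
def W_FIX : Prop := ∀ (n : ℕ) (a : Module.Basis (Fin (n + 1)) ℝ (V n)) (G : List (List ℤ))
  (q : ℕ), BG a G → hypB G = true → trnB G = true → simB G q = true → ∀ g ∈ OLat (LL a),
  (∀ i < q + 2, g (av a i) = av a i) → g ∈ RefL (LL a)

/-! ### Part X: the lattice U + D_4 + D_4 + A_1 -/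

/-- X1: the families of classes in Rad(L,2) modulo 2 L are preserved -/
def X_D44 : Prop := ∀ (a : Module.Basis (Fin (10 + 1)) ℝ (V 10)),
  BG a (blk hyp (gr [(.D 4, 1), (.D 4, 1), (.A 1, 1)])) → ∀ g ∈ OLat (LL a),
  IsOneMod (LL a) 2 g → ∀ w ∈ RefL (LL a),
  ¬ (w (g (av a 2)) = av a 6 ∧ w (g (av a 4)) = av a 8)

/-! ### Part R: assembly -/

/-- R1 -/
def R_ALL : Prop := ∀ (n : ℕ) (a : Module.Basis (Fin (n + 1)) ℝ (V n)) (G : List (List ℤ))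
  (d : Dat) (ok : List ℕ → Bool), BG a G → datB G d ok = true → ∀ g ∈ OLat (LL a),
  B (g (lv a d.p)) (lv a d.p) < 0 →
  ∃ w ∈ RefL (LL a), w (g (av a 0)) = av a 0 ∧ w (g (av a 1)) = av a 1 ∧
    ∃ π : ℕ → ℕ, (∀ i < d.q, π i < d.q) ∧
      (∀ i < d.q, w (g (av a (2 + i))) = av a (2 + π i)) ∧
      ok ((List.range d.q).map π) = true

/-- R2: the interface to Part 2 (the same as ORT in Helper2_CN3/Stmts.lean) -/
def R_ORT : Prop := ∀ (n : ℕ), ∀ l ∈ reps, (l.map fun T => T.1.rk).sum + 1 = n →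
  ∀ a : Module.Basis (Fin (n + 1)) ℝ (V n), (∀ i j, B (a i) (a j) = ent (blk hyp (gr l)) i j) →
  ∃ N : ℕ, 0 < N ∧ CongSub (Submodule.span ℤ (Set.range a)) N
    (RefL (Submodule.span ℤ (Set.range a)))

end Pool.Agent.CN3

end
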